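import Mathlib

/-!
Complex differentiable maps on open subsets of a complex normed space have
complex differentiable directional derivatives.
-/

open Complex Filter Topology Set Metric Asymptotics

namespace Pool.Agent.Lib.MP_08f711_an

section general

variable {E F : Type*} [NormedAddCommGroup E] [NormedSpace ℂ E] [NormedAddCommGroup F]
  [NormedSpace ℂ F]

theorem norm_fderiv_le_of_bound {f : E → F} {c : E} {R M : ℝ} (hR : 0 < R)
    (hf : DifferentiableOn ℂ f (ball c R)) (hM : ∀ y ∈ ball c R, ‖f y‖ ≤ M) :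
    ‖fderiv ℂ f c‖ ≤ 2 * M / R := by
  refine norm_fderiv_le_div_of_mapsTo_ball hf (fun y hy => ?_) hR
  rw [mem_closedBall, dist_eq_norm]
  have := norm_sub_le (f y) (f c)
  have h1 := hM y hy
  have h2 := hM c (mem_ball_self hR)
  linarith

theorem second_order_bound {f : E → F} {c : E} {R M : ℝ} (hR : 0 < R)
    (hf : DifferentiableOn ℂ f (ball c R)) (hM : ∀ y ∈ ball c R, ‖f y‖ ≤ M) {y : E}
    (hy : y ∈ ball c R) :
    ‖f y - f c - fderiv ℂ f c (y - c)‖ ≤ 4 * M * (‖y - c‖ / R) ^ 2 := by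
  have hA := norm_fderiv_le_of_bound hR hf hM
  have hd : HasFDerivAt f (fderiv ℂ f c) c :=
    (hf.differentiableAt (ball_mem_nhds c hR)).hasFDerivAt
  set A := fderiv ℂ f c
  let g : E → F := fun x => f x - A (x - c)
  have hg : DifferentiableOn ℂ g (ball c R) := hf.sub (by fun_prop)
  have gc : g c = f c := by simp [g]
  have hmaps : MapsTo g (ball c R) (closedBall (g c) (4 * M)) := by
    intro x hx
    rw [mem_closedBall, dist_eq_norm, gc]
    have h1 := hM x hx
    have h2 := hM c (mem_ball_self hR)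
    have h3 : ‖A (x - c)‖ ≤ 2 * M := by
      have hx' : ‖x - c‖ < R := by rwa [mem_ball, dist_eq_norm] at hx
      have hM0 : 0 ≤ M := (norm_nonneg _).trans h2
      calc ‖A (x - c)‖ ≤ ‖A‖ * ‖x - c‖ := A.le_opNorm _
        _ ≤ (2 * M / R) * R := by gcongr
        _ = 2 * M := by field_simp
    calc ‖f x - A (x - c) - f c‖ ≤ ‖f x - A (x - c)‖ + ‖f c‖ := norm_sub_le _ _
      _ ≤ ‖f x‖ + ‖A (x - c)‖ + ‖f c‖ := by gcongr; exact norm_sub_le _ _
      _ ≤ 4 * M := by linarith
  have hn : (fun x => g x - g c) =o[𝓝 c] (fun w => ‖w - c‖ ^ 1) := by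
    have := hd.isLittleO.norm_right
    simp only [pow_one]
    refine this.congr_left (fun x => ?_)
    simp only [g, sub_self, map_zero, sub_zero]
    abel
  have := dist_le_mul_div_pow_of_mapsTo_ball_of_isLittleO hg hmaps hn hy
  rw [dist_eq_norm, dist_eq_norm, gc] at this
  have e1 : f y - f c - A (y - c) = g y - f c := by
    simp only [g]
    abel
  rw [e1]
  exact this

/-- Weierstrass theorem in a normed space, quantitative form. -/
theorem differentiableAt_of_approx [CompleteSpace F] {G : E → F} {c : E} {R M : ℝ} (hR : 0 < R)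
    (hM : ∀ y ∈ ball c R, ‖G y‖ ≤ M)
    (h : ∀ ε > 0, ∃ f : E → F, DifferentiableOn ℂ f (ball c R) ∧
      ∀ y ∈ ball c R, ‖f y - G y‖ ≤ ε) : DifferentiableAt ℂ G c := by
  have hpos : ∀ n : ℕ, (0 : ℝ) < 1 / ((n : ℝ) + 1) := fun n => by positivity
  choose f hf hfG using fun n : ℕ => h (1 / ((n : ℝ) + 1)) (hpos n)
  have hcauchy : CauchySeq (fun n => fderiv ℂ (f n) c) := by
    refine cauchySeq_of_le_tendsto_0 (fun N : ℕ => 2 * (2 * (1 / ((N : ℝ) + 1))) / R) ?_ ?_
    · intro n m N hn hm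
      rw [dist_eq_norm, ← fderiv_sub ((hf n).differentiableAt (ball_mem_nhds c hR))
        ((hf m).differentiableAt (ball_mem_nhds c hR))]
      refine norm_fderiv_le_of_bound hR ((hf n).sub (hf m)) (fun y hy => ?_)
      have h1 := hfG n y hy
      have h2 := hfG m y hy
      have h3 : 1 / ((n : ℝ) + 1) ≤ 1 / ((N : ℝ) + 1) := by gcongr
      have h4 : 1 / ((m : ℝ) + 1) ≤ 1 / ((N : ℝ) + 1) := by gcongr
      calc ‖(f n - f m) y‖ = ‖(f n y - G y) - (f m y - G y)‖ := by simp
        _ ≤ ‖f n y - G y‖ + ‖f m y - G y‖ := norm_sub_le _ _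
        _ ≤ _ := by linarith
    · have := ((tendsto_one_div_add_atTop_nhds_zero_nat (𝕜 := ℝ)).const_mul 2).const_mul 2
        |>.div_const R
      simpa using this
  obtain ⟨A, hA⟩ := cauchySeq_tendsto_of_complete hcauchy
  have hlim : ∀ y ∈ ball c R, Tendsto (fun n => f n y) atTop (𝓝 (G y)) := by
    intro y hy
    rw [tendsto_iff_norm_sub_tendsto_zero]
    exact squeeze_zero (fun n => norm_nonneg _) (fun n => hfG n y hy)
      tendsto_one_div_add_atTop_nhds_zero_nat
  have hbound : ∀ y ∈ ball c R, ‖G y - G c - A (y - c)‖ ≤ 4 * (M + 1) * (‖y - c‖ / R) ^ 2 := by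
    intro y hy
    have t1 : Tendsto (fun n => f n y - f n c - fderiv ℂ (f n) c (y - c)) atTop
        (𝓝 (G y - G c - A (y - c))) := by
      refine ((hlim y hy).sub (hlim c (mem_ball_self hR))).sub ?_
      exact ((ContinuousLinearMap.apply ℂ F (y - c)).continuous.tendsto A).comp hA
    refine le_of_tendsto' t1.norm (fun n => second_order_bound hR (hf n) (fun x hx => ?_) hy)
    have h1 := hfG n x hx
    have h2 := hM x hx
    have h3 : 1 / ((n : ℝ) + 1) ≤ 1 := by
      rw [div_le_one (by positivity)]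
      linarith [Nat.cast_nonneg (α := ℝ) n]
    calc ‖f n x‖ = ‖(f n x - G x) + G x‖ := by simp
      _ ≤ ‖f n x - G x‖ + ‖G x‖ := norm_add_le _ _
      _ ≤ M + 1 := by linarith
  refine HasFDerivAt.differentiableAt (f' := A) ?_
  rw [hasFDerivAt_iff_isLittleO]
  have h1 : (fun y => G y - G c - A (y - c)) =O[𝓝 c] (fun y => ‖y - c‖ ^ 2) := by
    refine IsBigO.of_bound (4 * (M + 1) / R ^ 2) ?_
    filter_upwards [ball_mem_nhds c hR] with y hy
    refine (hbound y hy).trans_eq ?_
    rw [Real.norm_of_nonneg (by positivity)]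
    field_simp
  exact h1.trans_isLittleO (isLittleO_pow_sub_sub c one_lt_two)

theorem differentiableOn_fderiv_apply [CompleteSpace F] {f : E → F} {V : Set E} (hV : IsOpen V)
    (hf : DifferentiableOn ℂ f V) (e : E) : DifferentiableOn ℂ (fun x => fderiv ℂ f x e) V := by
  intro c hc
  refine DifferentiableAt.differentiableWithinAt ?_
  have hcont : ContinuousAt f c := (hf.differentiableAt (hV.mem_nhds hc)).continuousAt
  have hev : ∀ᶠ y in 𝓝 c, y ∈ V ∧ ‖f y‖ ≤ ‖f c‖ + 1 := by
    have := hcont.norm.eventually_le_const (show ‖f c‖ < ‖f c‖ + 1 by linarith)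
    filter_upwards [hV.mem_nhds hc, this] with y h1 h2 using ⟨h1, h2⟩
  obtain ⟨R2, hR2, hball⟩ := Metric.eventually_nhds_iff_ball.mp hev
  set M := ‖f c‖ + 1
  have hM0 : 0 < M := by positivity
  set R := R2 / 2 with hRdef
  have hR : 0 < R := by positivity
  have hsub : ∀ y ∈ ball c R, ball y R ⊆ ball c R2 := by
    intro y hy x hx
    rw [mem_ball] at *
    have := dist_triangle x y c
    linarith
  have hdy : ∀ y ∈ ball c R, DifferentiableOn ℂ f (ball y R) := fun y hy =>
    hf.mono (fun x hx => (hball x (hsub y hy hx)).1)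
  have hMy : ∀ y ∈ ball c R, ∀ x ∈ ball y R, ‖f x‖ ≤ M := fun y hy x hx =>
    (hball x (hsub y hy hx)).2
  refine differentiableAt_of_approx (M := 2 * M / R * ‖e‖) hR (fun y hy => ?_) (fun ε hε => ?_)
  · exact ((fderiv ℂ f y).le_opNorm e).trans
      (mul_le_mul_of_nonneg_right (norm_fderiv_le_of_bound hR (hdy y hy) (hMy y hy))
        (norm_nonneg _))
  · obtain ⟨h, hh0, hh1, hh2⟩ : ∃ h : ℝ, 0 < h ∧ h * ‖e‖ < R ∧ 4 * M * h * (‖e‖ / R) ^ 2 ≤ ε := by
      have t1 : Tendsto (fun h : ℝ => h * ‖e‖) (𝓝[>] 0) (𝓝 0) := by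
        have : Continuous (fun h : ℝ => h * ‖e‖) := by fun_prop
        simpa using (this.tendsto 0).mono_left nhdsWithin_le_nhds
      have t2 : Tendsto (fun h : ℝ => 4 * M * h * (‖e‖ / R) ^ 2) (𝓝[>] 0) (𝓝 0) := by
        have : Continuous (fun h : ℝ => 4 * M * h * (‖e‖ / R) ^ 2) := by fun_prop
        simpa using (this.tendsto 0).mono_left nhdsWithin_le_nhds
      have := (t1.eventually_lt_const hR).and ((t2.eventually_le_const hε).and
        (self_mem_nhdsWithin (s := Ioi (0 : ℝ)) (a := 0)))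
      obtain ⟨h, h1, h2, h3⟩ := this.exists
      exact ⟨h, h3, h1, h2⟩
    have hne : (h : ℂ) ≠ 0 := by exact_mod_cast hh0.ne'
    have hnorm : ‖(h : ℂ) • e‖ = h * ‖e‖ := by
      rw [norm_smul, norm_real, Real.norm_of_nonneg hh0.le]
    have hmem : ∀ y, y + (h : ℂ) • e ∈ ball y R := by
      intro y
      rw [mem_ball, dist_eq_norm, add_sub_cancel_left, hnorm]
      exact hh1
    refine ⟨fun y => (h : ℂ)⁻¹ • (f (y + (h : ℂ) • e) - f y), ?_, fun y hy => ?_⟩
    · refine DifferentiableOn.const_smul (DifferentiableOn.sub ?_ (hdy c (mem_ball_self hR))) _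
      refine hf.comp (by fun_prop) (fun y hy => (hball _ (hsub y hy (hmem y))).1)
    · have := second_order_bound hR (hdy y hy) (hMy y hy) (hmem y)
      rw [add_sub_cancel_left, hnorm, map_smul] at this
      have e1 : (h : ℂ)⁻¹ • (f (y + (h : ℂ) • e) - f y) - fderiv ℂ f y e =
          (h : ℂ)⁻¹ • (f (y + (h : ℂ) • e) - f y - (h : ℂ) • fderiv ℂ f y e) := by
        rw [smul_sub (h : ℂ)⁻¹ (f (y + (h : ℂ) • e) - f y), inv_smul_smul₀ hne]
      rw [e1, norm_smul, norm_inv, norm_real, Real.norm_of_nonneg hh0.le]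
      calc h⁻¹ * ‖f (y + (h : ℂ) • e) - f y - (h : ℂ) • fderiv ℂ f y e‖
          ≤ h⁻¹ * (4 * M * (h * ‖e‖ / R) ^ 2) := by gcongr
        _ = 4 * M * h * (‖e‖ / R) ^ 2 := by field_simp
        _ ≤ ε := hh2

theorem contDiffAt_one_of_differentiableOn [CompleteSpace F] [FiniteDimensional ℂ E] {f : E → F}
    {V : Set E} (hV : IsOpen V) (hf : DifferentiableOn ℂ f V) {x : E} (hx : x ∈ V) :
    ContDiffAt ℂ 1 f x := by
  rw [contDiffAt_one_iff]
  refine ⟨fderiv ℂ f, V, hV.mem_nhds hx, ?_, fun y hy =>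
    (hf.differentiableAt (hV.mem_nhds hy)).hasFDerivAt⟩
  rw [continuousOn_clm_apply]
  exact fun e => (differentiableOn_fderiv_apply hV hf e).continuousOn

end general

end Pool.Agent.Lib.MP_08f711_an
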