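import Mathlib
import Pool.Agent.Lib.MP_08f711_an.Holo

/-!
An injective holomorphic map between open subsets of the complex plane, or of complex
two-space, has an invertible derivative.
-/

open Complex Filter Topology Set Metric Asymptotics

namespace Pool.Agent.Lib.MP_08f711_an

theorem deriv_ne_zero_of_injOn {g : ℂ → ℂ} {c : ℂ} (hg : AnalyticAt ℂ g c) {S : Set ℂ}
    (hS : S ∈ 𝓝 c) (hinj : InjOn g S) : deriv g c ≠ 0 := by
  intro h0
  have hf : AnalyticAt ℂ (fun z => g z - g c) c := by fun_prop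
  have h2 : ((2 : ℕ) : ℕ∞) ≤ analyticOrderAt (fun z => g z - g c) c := by
    rw [natCast_le_analyticOrderAt_iff_iteratedDeriv_eq_zero hf]
    intro i hi
    interval_cases i
    · simp
    · simpa [deriv_sub_const] using h0
  have hc : c ∈ S := mem_of_mem_nhds hS
  generalize hord : analyticOrderAt (fun z => g z - g c) c = r at h2
  cases r with
  | top =>
    rw [analyticOrderAt_eq_top] at hord
    have : ∀ᶠ z in 𝓝[≠] c, z ∈ S ∧ g z - g c = 0 :=
      (Filter.Eventually.and hS hord).filter_mono nhdsWithin_le_nhds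
    obtain ⟨z, ⟨hz1, hz2⟩, hz3⟩ := (this.and self_mem_nhdsWithin).exists
    exact hz3 (hinj hz1 hc (sub_eq_zero.mp hz2))
  | coe n =>
    have hn : 2 ≤ n := by exact_mod_cast h2
    obtain ⟨u, hu, hu0, heq⟩ := hf.analyticOrderAt_eq_natCast.mp hord
    let v : ℂ → ℂ := fun z => (u z / u c) ^ ((n : ℂ)⁻¹)
    have hv : AnalyticAt ℂ v c := by
      refine AnalyticAt.cpow (by fun_prop) analyticAt_const ?_
      simp [div_self hu0]
    have hvc : v c = 1 := by simp [v, div_self hu0]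
    let φ : ℂ → ℂ := fun z => (z - c) * v z
    have hφ : HasStrictDerivAt φ 1 c := by
      have h1 : HasStrictDerivAt (fun z : ℂ => z - c) 1 c := (hasStrictDerivAt_id c).sub_const c
      have := HasStrictDerivAt.mul h1 hv.hasStrictDerivAt
      simp only [hvc, sub_self, zero_mul, add_zero, mul_one] at this
      exact this
    have hmap := hφ.map_nhds_eq one_ne_zero
    have hφc : φ c = 0 := by simp [φ]
    rw [hφc] at hmap
    have hS' : φ '' (S ∩ {z | g z - g c = (z - c) ^ n • u z}) ∈ 𝓝 (0 : ℂ) := by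
      rw [← hmap]
      exact image_mem_map (inter_mem hS heq)
    have hprim := Complex.isPrimitiveRoot_exp n (by omega)
    set ω := cexp (2 * Real.pi * I / n)
    have hω1 : ω ≠ 1 := hprim.ne_one (by omega)
    have hωn : ω ^ n = 1 := hprim.pow_eq_one
    have ht : Tendsto (fun e : ℂ => ω * e) (𝓝 0) (𝓝 0) := by
      have : Continuous (fun e : ℂ => ω * e) := by fun_prop
      simpa using this.tendsto 0
    have : ∀ᶠ e in 𝓝[≠] (0 : ℂ), e ∈ φ '' (S ∩ {z | g z - g c = (z - c) ^ n • u z}) ∧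
        ω * e ∈ φ '' (S ∩ {z | g z - g c = (z - c) ^ n • u z}) :=
      (Filter.Eventually.and hS' (ht hS')).filter_mono nhdsWithin_le_nhds
    obtain ⟨e, ⟨⟨z1, ⟨h1S, h1e⟩, h1⟩, ⟨z2, ⟨h2S, h2e⟩, h2⟩⟩, he⟩ :=
      (this.and self_mem_nhdsWithin).exists
    have key : ∀ z, (z - c) ^ n • u z = u c * φ z ^ n := by
      intro z
      simp only [φ, v, mul_pow, cpow_nat_inv_pow _ (show n ≠ 0 by omega), smul_eq_mul]
      field_simp
    have h12 : g z1 = g z2 := by
      have a1 : g z1 - g c = u c * e ^ n := by rw [h1e, key, h1]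
      have a2 : g z2 - g c = u c * e ^ n := by rw [h2e, key, h2, mul_pow, hωn, one_mul]
      linear_combination a1 - a2
    have := hinj h1S h2S h12
    rw [this, h2] at h1
    have he' : e ≠ 0 := he
    exact hω1 (mul_right_cancel₀ he' (by rw [h1, one_mul]))

theorem isInvertible_of_ne_zero {L : ℂ →L[ℂ] ℂ} (h : L 1 ≠ 0) : L.IsInvertible := by
  refine ⟨ContinuousLinearEquiv.unitsEquivAut ℂ (Units.mk0 _ h), ?_⟩
  ext
  simp

/-- The implicit function theorem in the form used below. -/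
theorem exists_implicit {f : ℂ × ℂ → ℂ} {u : ℂ × ℂ} (hf : ContDiffAt ℂ 1 f u)
    (h : fderiv ℂ f u (0, 1) ≠ 0) :
    ∃ ψ : ℂ → ℂ, AnalyticAt ℂ ψ u.1 ∧ ψ u.1 = u.2 ∧ (∀ᶠ v in 𝓝 u, f v = f u ↔ ψ v.1 = v.2) ∧
      (fderiv ℂ f u (1, 0) = 0 → deriv ψ u.1 = 0) := by
  have hinv : (fderiv ℂ f u ∘L .inr ℂ ℂ ℂ).IsInvertible := isInvertible_of_ne_zero (by simpa using h)
  refine ⟨hf.implicitFunction one_ne_zero hinv, ?_, hf.implicitFunction_apply_self _ _,
    hf.eventually_apply_eq_iff_implicitFunction _ _, fun h1 => ?_⟩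
  · have := hf.contDiffAt_implicitFunction one_ne_zero hinv
    rw [analyticAt_iff_eventually_differentiableAt]
    filter_upwards [this.eventually (by simp)] with x hx using hx.differentiableAt one_ne_zero
  · have := (hf.hasStrictFDerivAt_implicitFunction one_ne_zero hinv).hasFDerivAt.hasDerivAt.deriv
    rw [this]
    simp [h1]

theorem eq_zero_of_fderiv_not_injective_aux {Φ : ℂ × ℂ → ℂ × ℂ} {V : Set (ℂ × ℂ)} (hV : IsOpen V)
    (hΦ : DifferentiableOn ℂ Φ V) (hinj : InjOn Φ V) {q : ℂ × ℂ} (hq : q ∈ V)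
    (l m : ℂ × ℂ →L[ℂ] ℂ) (hlm : ∀ y, l y = 0 → m y = 0 → y = 0) {v e : ℂ × ℂ} (hv : v ≠ 0)
    (hAv : fderiv ℂ Φ q v = 0) (hAe : l (fderiv ℂ Φ q e) ≠ 0) : False := by
  set A := fderiv ℂ Φ q
  let L : ℂ × ℂ →L[ℂ] ℂ × ℂ := (ContinuousLinearMap.fst ℂ ℂ ℂ).smulRight v +
    (ContinuousLinearMap.snd ℂ ℂ ℂ).smulRight e
  have hL : ∀ x : ℂ × ℂ, L x = x.1 • v + x.2 • e := fun x => by simp [L]
  have hC1 : ContDiffAt ℂ 1 Φ q := contDiffAt_one_of_differentiableOn hV hΦ hq
  have hd : HasFDerivAt Φ A q := (hΦ.differentiableAt (hV.mem_nhds hq)).hasFDerivAt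
  let f : ℂ × ℂ → ℂ := fun x => l (Φ (q + L x))
  have hq0 : q + L 0 = q := by simp
  have hf : ContDiffAt ℂ 1 f 0 := by
    refine l.contDiff.contDiffAt.comp 0 (ContDiffAt.comp 0 (by rwa [hq0]) ?_)
    exact (contDiffAt_const.add L.contDiff.contDiffAt)
  have hfd : HasFDerivAt f (l.comp (A.comp L)) 0 := by
    refine l.hasFDerivAt.comp 0 (HasFDerivAt.comp (f := fun x => q + L x) 0 (by rwa [hq0]) ?_)
    exact L.hasFDerivAt.const_add q
  obtain ⟨ψ, hψ, hψ0, hψe, hψd⟩ := exists_implicit hf (by rw [hfd.fderiv]; simpa [hL] using hAe)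
  have hψd0 : deriv ψ 0 = 0 := hψd (by rw [hfd.fderiv]; simp [hL, hAv])
  simp only [Prod.fst_zero, Prod.snd_zero] at hψ hψ0
  let γ : ℂ → ℂ × ℂ := fun a => q + L (a, ψ a)
  have hγ0 : γ 0 = q := by simp [γ, hψ0, hL]
  have hγ : AnalyticAt ℂ γ 0 := by
    refine analyticAt_const.add ((L.analyticAt _).comp (analyticAt_id.prod hψ))
  have hγd : HasDerivAt γ v 0 := by
    have h0 : HasDerivAt ψ 0 0 := by
      have := hψ.differentiableAt.hasDerivAt
      rwa [hψd0] at this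
    have h1 : HasDerivAt (fun a => (a, ψ a)) ((1 : ℂ), (0 : ℂ)) 0 :=
      (hasDerivAt_id 0).prodMk h0
    have := (L.hasFDerivAt.comp_hasDerivAt 0 h1).const_add q
    rw [hL] at this
    simp only [one_smul, zero_smul, add_zero] at this
    exact this
  have hγV : ∀ᶠ a in 𝓝 (0 : ℂ), γ a ∈ V :=
    hγ.continuousAt.preimage_mem_nhds (by rw [hγ0]; exact hV.mem_nhds hq)
  have hlconst : ∀ᶠ a in 𝓝 (0 : ℂ), l (Φ (γ a)) = f 0 := by
    have ht : Tendsto (fun a => (a, ψ a)) (𝓝 (0 : ℂ)) (𝓝 (0 : ℂ × ℂ)) := by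
      have := (continuousAt_id.prodMk hψ.continuousAt).tendsto
      simp only [id, hψ0] at this
      exact this
    filter_upwards [ht hψe] with a ha
    exact ha.mpr rfl
  let g : ℂ → ℂ := fun a => m (Φ (γ a))
  have hg : AnalyticAt ℂ g 0 := by
    rw [analyticAt_iff_eventually_differentiableAt]
    filter_upwards [hγV, hγ.eventually_analyticAt] with a ha ha'
    exact m.differentiableAt.comp a
      ((hΦ.differentiableAt (hV.mem_nhds ha)).comp a ha'.differentiableAt)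
  have hgd : HasDerivAt g 0 0 := by
    have := m.hasFDerivAt.comp_hasDerivAt 0 (HasFDerivAt.comp_hasDerivAt (f := γ) 0
      (by rw [hγ0]; exact hd) hγd)
    rw [hAv, map_zero] at this
    exact this
  refine deriv_ne_zero_of_injOn hg (hγV.and hlconst) (fun a ha b hb hab => ?_) hgd.deriv
  have h1 : Φ (γ a) = Φ (γ b) := by
    rw [← sub_eq_zero]
    refine hlm _ (by rw [map_sub, ha.2, hb.2, sub_self]) (by rw [map_sub, sub_eq_zero]; exact hab)
  have h2 := hinj ha.1 hb.1 h1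
  have h3 : (a - b) • v + (ψ a - ψ b) • e = 0 := by
    simp only [γ, hL, add_right_inj] at h2
    rw [sub_smul, sub_smul]
    linear_combination (exp := 1) h2
  have h4 := congrArg (fun y => l (A y)) h3
  simp only [map_add, map_smul, hAv, smul_zero, zero_add, map_zero, smul_eq_mul, mul_eq_zero,
    hAe, or_false] at h4
  rw [h4, zero_smul, add_zero, smul_eq_zero] at h3
  exact sub_eq_zero.mp (h3.resolve_right hv)

theorem fderiv_eq_zero_of_ker {Φ : ℂ × ℂ → ℂ × ℂ} {V : Set (ℂ × ℂ)} (hV : IsOpen V)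
    (hΦ : DifferentiableOn ℂ Φ V) (hinj : InjOn Φ V) {q : ℂ × ℂ} (hq : q ∈ V)
    {v : ℂ × ℂ} (hv : v ≠ 0) (hAv : fderiv ℂ Φ q v = 0) : fderiv ℂ Φ q = 0 := by
  refine ContinuousLinearMap.ext (fun e => ?_)
  by_contra hne
  have : (fderiv ℂ Φ q e).1 ≠ 0 ∨ (fderiv ℂ Φ q e).2 ≠ 0 := by
    by_contra h
    push Not at h
    exact hne (Prod.ext h.1 h.2)
  rcases this with h | h
  · exact eq_zero_of_fderiv_not_injective_aux hV hΦ hinj hq (.fst ℂ ℂ ℂ) (.snd ℂ ℂ ℂ)
      (fun y h1 h2 => Prod.ext h1 h2) hv hAv h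
  · exact eq_zero_of_fderiv_not_injective_aux hV hΦ hinj hq (.snd ℂ ℂ ℂ) (.fst ℂ ℂ ℂ)
      (fun y h1 h2 => Prod.ext h2 h1) hv hAv h

/-- The Jacobian determinant. -/
noncomputable def jac (Φ : ℂ × ℂ → ℂ × ℂ) (x : ℂ × ℂ) : ℂ :=
  (fderiv ℂ Φ x (1, 0)).1 * (fderiv ℂ Φ x (0, 1)).2 -
    (fderiv ℂ Φ x (0, 1)).1 * (fderiv ℂ Φ x (1, 0)).2

theorem clm_apply_prod (A : ℂ × ℂ →L[ℂ] ℂ × ℂ) (x : ℂ × ℂ) :
    A x = x.1 • A (1, 0) + x.2 • A (0, 1) := by
  rw [← map_smul, ← map_smul, ← map_add]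
  simp

theorem fderiv_eq_zero_of_jac {Φ : ℂ × ℂ → ℂ × ℂ} {V : Set (ℂ × ℂ)} (hV : IsOpen V)
    (hΦ : DifferentiableOn ℂ Φ V) (hinj : InjOn Φ V) {q : ℂ × ℂ} (hq : q ∈ V)
    (h : jac Φ q = 0) : fderiv ℂ Φ q = 0 := by
  unfold jac at h
  set A := fderiv ℂ Φ q with hA
  by_cases h1 : ((A (0, 1)).2, -(A (1, 0)).2) = (0 : ℂ × ℂ)
  · by_cases h2 : ((A (0, 1)).1, -(A (1, 0)).1) = (0 : ℂ × ℂ)
    · simp only [Prod.mk_eq_zero, neg_eq_zero] at h1 h2
      refine ContinuousLinearMap.ext (fun e => ?_)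
      rw [clm_apply_prod]
      ext <;> simp [h1.1, h1.2, h2.1, h2.2]
    · refine fderiv_eq_zero_of_ker hV hΦ hinj hq h2 ?_
      rw [← hA, clm_apply_prod]
      ext
      · simp; ring
      · simp; linear_combination -h
  · refine fderiv_eq_zero_of_ker hV hΦ hinj hq h1 ?_
    rw [← hA, clm_apply_prod]
    ext
    · simp; linear_combination h
    · simp; ring

theorem differentiableOn_jac {Φ : ℂ × ℂ → ℂ × ℂ} {V : Set (ℂ × ℂ)} (hV : IsOpen V)
    (hΦ : DifferentiableOn ℂ Φ V) : DifferentiableOn ℂ (jac Φ) V := by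
  have h1 := differentiableOn_fderiv_apply hV hΦ (1, 0)
  have h2 := differentiableOn_fderiv_apply hV hΦ (0, 1)
  exact (h1.fst.mul h2.snd).sub (h2.fst.mul h1.snd)

/-- An injective curve cannot consist of critical points. -/
theorem not_eventually_jac_zero {Φ : ℂ × ℂ → ℂ × ℂ} {V : Set (ℂ × ℂ)} (hV : IsOpen V)
    (hΦ : DifferentiableOn ℂ Φ V) (hinj : InjOn Φ V) {γ : ℂ → ℂ × ℂ} {c : ℂ}
    (hγ : AnalyticAt ℂ γ c) (hc : γ c ∈ V) (hγi : Function.Injective γ)
    (h : ∀ᶠ a in 𝓝 c, jac Φ (γ a) = 0) : False := by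
  have hγV : ∀ᶠ a in 𝓝 c, γ a ∈ V := hγ.continuousAt.preimage_mem_nhds (hV.mem_nhds hc)
  have hd : ∀ᶠ a in 𝓝 c, HasDerivAt (fun a => Φ (γ a)) 0 a := by
    filter_upwards [hγV, h, hγ.eventually_analyticAt] with a h1 h2 h3
    have := (hΦ.differentiableAt (hV.mem_nhds h1)).hasFDerivAt.comp_hasDerivAt a
      h3.differentiableAt.hasDerivAt
    rw [fderiv_eq_zero_of_jac hV hΦ hinj h1 h2] at this
    exact this
  obtain ⟨r, hr, hball⟩ := Metric.eventually_nhds_iff_ball.mp (hγV.and hd)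
  have hconst : ∀ a ∈ ball c r, Φ (γ a) = Φ (γ c) := by
    intro a ha
    refine (convex_ball c r).is_const_of_fderivWithin_eq_zero (𝕜 := ℂ) (f := fun a => Φ (γ a))
      (fun x hx => (hball x hx).2.differentiableAt.differentiableWithinAt) (fun x hx => ?_) ha
      (mem_ball_self hr)
    rw [fderivWithin_of_isOpen isOpen_ball hx, (hball x hx).2.hasFDerivAt.fderiv]
    simp
  have hm : c + (r / 2 : ℝ) ∈ ball c r := by
    rw [mem_ball, dist_eq_norm, add_sub_cancel_left, norm_real, Real.norm_of_nonneg (by positivity)]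
    linarith
  have := hγi (hinj (hball _ hm).1 hc (hconst _ hm))
  have h2 : ((r / 2 : ℝ) : ℂ) = 0 := by linear_combination this
  have h3 : (r / 2 : ℝ) = 0 := by exact_mod_cast h2
  linarith

/-- Zeros persist on nearby vertical lines. -/
theorem zeros_persist {J : ℂ × ℂ → ℂ} {V : Set (ℂ × ℂ)} (hV : IsOpen V)
    (hJ : DifferentiableOn ℂ J V) {x : ℂ × ℂ} (hx : x ∈ V) (hx0 : J x = 0)
    (hne : ¬ ∀ᶠ w in 𝓝 x.2, J (x.1, w) = 0) {N : Set (ℂ × ℂ)} (hN : N ∈ 𝓝 x) :
    ∀ᶠ z in 𝓝 x.1, ∃ w, (z, w) ∈ N ∧ J (z, w) = 0 := by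
  obtain ⟨R, hR, hball⟩ := Metric.mem_nhds_iff.mp (inter_mem (hV.mem_nhds hx) hN)
  have hslice : ∀ z w, dist z x.1 < R → dist w x.2 < R → (z, w) ∈ V ∩ N := by
    intro z w hz hw
    apply hball
    rw [mem_ball, Prod.dist_eq]
    exact max_lt hz hw
  have hdiff : ∀ z w, dist z x.1 < R → dist w x.2 < R → DifferentiableAt ℂ (fun w => J (z, w)) w := by
    intro z w hz hw
    exact (hJ.differentiableAt (hV.mem_nhds (hslice z w hz hw).1)).comp w (by fun_prop)
  have han : AnalyticAt ℂ (fun w => J (x.1, w)) x.2 := by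
    rw [analyticAt_iff_eventually_differentiableAt]
    filter_upwards [ball_mem_nhds x.2 hR] with w hw using hdiff _ _ (by simpa using hR) hw
  have hiso := han.eventually_eq_zero_or_eventually_ne_zero.resolve_left hne
  rw [eventually_nhdsWithin_iff] at hiso
  obtain ⟨r0, hr0, hb0⟩ := Metric.eventually_nhds_iff_ball.mp hiso
  set r := min r0 R / 2 with hr
  have hrpos : 0 < r := by positivity
  have hr1 : r < r0 := by have := min_le_left r0 R; linarith
  have hr2 : r < R := by have := min_le_right r0 R; linarith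
  have hcont : ContinuousOn (fun w => ‖J (x.1, w)‖) (sphere x.2 r) := fun w hw =>
    (hdiff _ _ (by simpa using hR) (by rw [mem_sphere.mp hw]; exact hr2)).continuousAt.norm
      |>.continuousWithinAt
  obtain ⟨w0, hw0, hmin⟩ := (isCompact_sphere x.2 r).exists_isMinOn
    (NormedSpace.sphere_nonempty.mpr hrpos.le) hcont
  set μ := ‖J (x.1, w0)‖
  have hμ : 0 < μ := by
    refine norm_pos_iff.mpr (hb0 w0 (by rw [mem_ball, mem_sphere.mp hw0]; exact hr1) ?_)
    intro h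
    have : w0 = x.2 := h
    rw [this, mem_sphere, dist_self] at hw0
    linarith
  have ev1 : ∀ᶠ z in 𝓝 x.1, ∀ w ∈ sphere x.2 r, μ / 2 < ‖J (z, w)‖ := by
    refine (isCompact_sphere x.2 r).eventually_forall_of_forall_eventually (fun w hw => ?_)
    have hw' : dist w x.2 < R := by rw [mem_sphere.mp hw]; exact hr2
    have hc : ContinuousAt (fun p : ℂ × ℂ => ‖J p‖) (x.1, w) :=
      (hJ.differentiableAt (hV.mem_nhds (hslice _ _ (by simpa using hR) hw').1)).continuousAt.norm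
    have : μ / 2 < ‖J (x.1, w)‖ := lt_of_lt_of_le (by linarith) (hmin hw)
    exact hc.eventually_const_lt this
  have ev2 : ∀ᶠ z in 𝓝 x.1, ‖J (z, x.2)‖ < μ / 2 := by
    have hc : ContinuousAt (fun z => ‖J (z, x.2)‖) x.1 := by
      refine ContinuousAt.norm (ContinuousAt.comp (f := fun z => (z, x.2)) ?_ (by fun_prop))
      exact (hJ.differentiableAt (hV.mem_nhds hx)).continuousAt
    refine hc.eventually_lt_const ?_
    simp only [Prod.mk.eta, hx0, norm_zero]
    linarith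
  filter_upwards [ev1, ev2, ball_mem_nhds x.1 hR] with z h1 h2 h3
  by_contra hcon
  push Not at hcon
  have hnz : ∀ w ∈ closedBall x.2 r, J (z, w) ≠ 0 := fun w hw =>
    hcon w (hslice z w h3 (lt_of_le_of_lt hw hr2)).2
  have hdc : DiffContOnCl ℂ (fun w => (J (z, w))⁻¹) (ball x.2 r) := by
    refine DifferentiableOn.diffContOnCl ?_
    rw [closure_ball _ hrpos.ne']
    exact fun w hw => ((hdiff z w h3 (lt_of_le_of_lt hw hr2)).inv (hnz w hw)).differentiableWithinAt
  have := norm_le_of_forall_mem_frontier_norm_le (C := (μ / 2)⁻¹) isBounded_ball hdc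
    (fun w hw => by
      rw [frontier_ball _ hrpos.ne'] at hw
      rw [norm_inv]
      exact inv_anti₀ (by linarith) (h1 w hw).le)
    (subset_closure (mem_ball_self hrpos))
  rw [norm_inv] at this
  have h4 : 0 < ‖J (z, x.2)‖ := norm_pos_iff.mpr (hnz _ (mem_closedBall_self hrpos.le))
  have := inv_anti₀ (by positivity) this
  rw [inv_inv, inv_inv] at this
  linarith

/-- Iterated derivative in the second variable. -/
noncomputable def dsnd (J : ℂ × ℂ → ℂ) : ℕ → ℂ × ℂ → ℂ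
  | 0 => J
  | k + 1 => fun x => fderiv ℂ (dsnd J k) x (0, 1)

theorem differentiableOn_dsnd {J : ℂ × ℂ → ℂ} {V : Set (ℂ × ℂ)} (hV : IsOpen V)
    (hJ : DifferentiableOn ℂ J V) (k : ℕ) : DifferentiableOn ℂ (dsnd J k) V := by
  induction k with
  | zero => exact hJ
  | succ k ih => exact differentiableOn_fderiv_apply hV ih (0, 1)

theorem dsnd_eq {J : ℂ × ℂ → ℂ} {V : Set (ℂ × ℂ)} (hV : IsOpen V)
    (hJ : DifferentiableOn ℂ J V) (k : ℕ) (z : ℂ) :
    ∀ w, (z, w) ∈ V → dsnd J k (z, w) = iteratedDeriv k (fun w => J (z, w)) w := by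
  induction k with
  | zero => intro w _; simp [dsnd]
  | succ k ih =>
    intro w hw
    have hev : iteratedDeriv k (fun w => J (z, w)) =ᶠ[𝓝 w] fun w => dsnd J k (z, w) := by
      have : ∀ᶠ w' in 𝓝 w, (z, w') ∈ V :=
        (show ContinuousAt (fun w' : ℂ => (z, w')) w by fun_prop).preimage_mem_nhds (hV.mem_nhds hw)
      filter_upwards [this] with w' hw' using (ih w' hw').symm
    rw [iteratedDeriv_succ, hev.deriv_eq]
    have h1 : HasDerivAt (fun w' : ℂ => (z, w')) ((0 : ℂ), (1 : ℂ)) w :=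
      (hasDerivAt_const w z).prodMk (hasDerivAt_id w)
    have := ((differentiableOn_dsnd hV hJ k).differentiableAt
      (hV.mem_nhds hw)).hasFDerivAt.comp_hasDerivAt w h1
    exact this.deriv.symm

theorem jac_ne_zero {Φ : ℂ × ℂ → ℂ × ℂ} {V : Set (ℂ × ℂ)} (hV : IsOpen V)
    (hΦ : DifferentiableOn ℂ Φ V) (hinj : InjOn Φ V) {q : ℂ × ℂ} (hq : q ∈ V) : jac Φ q ≠ 0 := by
  have hJ := differentiableOn_jac hV hΦ
  have hvert : ∀ x ∈ V, ¬ ∀ᶠ w in 𝓝 x.2, jac Φ (x.1, w) = 0 := by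
    intro x hx h
    refine not_eventually_jac_zero hV hΦ hinj (γ := fun w => (x.1, w)) (c := x.2)
      (analyticAt_const.prod analyticAt_id) hx (fun a b hab => (Prod.mk.inj hab).2) h
  have hall : ∀ k, ∀ x ∈ V, jac Φ x = 0 → dsnd (jac Φ) k x = 0 := by
    intro k
    induction k with
    | zero => exact fun x _ h => h
    | succ k ih =>
      intro x hx hx0
      by_contra hne
      obtain ⟨ψ, hψ, hψ0, hψe, -⟩ := exists_implicit
        (contDiffAt_one_of_differentiableOn hV (differentiableOn_dsnd hV hJ k) hx) hne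
      have hp := zeros_persist hV hJ hx hx0 (hvert x hx) (Filter.Eventually.and hψe (hV.mem_nhds hx))
      refine not_eventually_jac_zero hV hΦ hinj (γ := fun z => (z, ψ z)) (c := x.1)
        (analyticAt_id.prod hψ) (by simpa [hψ0] using hx) (fun a b hab => (Prod.mk.inj hab).1) ?_
      filter_upwards [hp] with z ⟨w, ⟨h1, h2⟩, h3⟩
      have : ψ z = w := h1.mp (by rw [ih _ h2 h3, ih _ hx hx0])
      rw [this]
      exact h3
  intro h0
  refine hvert q hq ?_
  have han : AnalyticAt ℂ (fun w => jac Φ (q.1, w)) q.2 := by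
    rw [analyticAt_iff_eventually_differentiableAt]
    have : ∀ᶠ w' in 𝓝 q.2, (q.1, w') ∈ V :=
      (show ContinuousAt (fun w' : ℂ => (q.1, w')) q.2 by fun_prop).preimage_mem_nhds
        (hV.mem_nhds hq)
    filter_upwards [this] with w hw
    exact (hJ.differentiableAt (hV.mem_nhds hw)).comp w (by fun_prop)
  rw [← analyticOrderAt_eq_top, ENat.eq_top_iff_forall_ge]
  intro n
  rw [natCast_le_analyticOrderAt_iff_iteratedDeriv_eq_zero han]
  intro i _
  rw [← dsnd_eq hV hJ i q.1 q.2 hq]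
  exact hall i q hq h0

/-- The inverse of an injective holomorphic map is holomorphic. -/
theorem differentiableAt_invFunOn {Φ : ℂ × ℂ → ℂ × ℂ} {V : Set (ℂ × ℂ)} (hV : IsOpen V)
    (hΦ : DifferentiableOn ℂ Φ V) (hinj : InjOn Φ V) {y : ℂ × ℂ} (hy : y ∈ Φ '' V) :
    DifferentiableAt ℂ (Function.invFunOn Φ V) y := by
  obtain ⟨q, hq, rfl⟩ := hy
  have hJ := jac_ne_zero hV hΦ hinj hq
  have hker : Function.Injective (fderiv ℂ Φ q) := by
    rw [injective_iff_map_eq_zero]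
    intro v hv
    by_contra hne
    apply hJ
    simp [jac, fderiv_eq_zero_of_ker hV hΦ hinj hq hne hv]
  let e : (ℂ × ℂ) ≃L[ℂ] (ℂ × ℂ) :=
    (LinearEquiv.ofInjectiveEndo (fderiv ℂ Φ q).toLinearMap hker).toContinuousLinearEquiv
  have he : (e : ℂ × ℂ →L[ℂ] ℂ × ℂ) = fderiv ℂ Φ q := by
    refine ContinuousLinearMap.ext (fun v => ?_)
    simp [e]
  have hs : HasStrictFDerivAt Φ (e : ℂ × ℂ →L[ℂ] ℂ × ℂ) q := by
    rw [he]
    exact (contDiffAt_one_of_differentiableOn hV hΦ hq).hasStrictFDerivAt one_ne_zero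
  refine (hs.to_local_left_inverse ?_).hasFDerivAt.differentiableAt
  filter_upwards [hV.mem_nhds hq] with x hx
  exact hinj.leftInvOn_invFunOn hx

end Pool.Agent.Lib.MP_08f711_an
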