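import Mathlib

/-!
A discrete Laplacian at a point and the maximum principle for it.
-/

open Complex Filter Topology Set Metric

namespace Pool.Agent.Lib.MP_08f711_an

/-- The four-point second difference quotient of `u` at `z` tends to `l`. -/
def Lap (u : ℂ → ℝ) (z : ℂ) (l : ℝ) : Prop :=
  Tendsto (fun s : ℝ => (u (z + s) + u (z + I * s) + u (z - s) + u (z - I * s) - 4 * u z) / s ^ 2)
    (𝓝[>] 0) (𝓝 l)

theorem Lap.add {u v : ℂ → ℝ} {z : ℂ} {l m : ℝ} (hu : Lap u z l) (hv : Lap v z m) :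
    Lap (fun t => u t + v t) z (l + m) := by
  unfold Lap at *
  refine (hu.add hv).congr (fun s => ?_)
  ring

theorem Lap.sub {u v : ℂ → ℝ} {z : ℂ} {l m : ℝ} (hu : Lap u z l) (hv : Lap v z m) :
    Lap (fun t => u t - v t) z (l - m) := by
  unfold Lap at *
  refine (hu.sub hv).congr (fun s => ?_)
  ring

theorem Lap.const_mul {u : ℂ → ℝ} {z : ℂ} {l : ℝ} (c : ℝ) (hu : Lap u z l) :
    Lap (fun t => c * u t) z (c * l) := by
  unfold Lap at *
  refine (hu.const_mul c).congr (fun s => ?_)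
  ring

theorem Lap.const (c : ℝ) (z : ℂ) : Lap (fun _ => c) z 0 := by
  unfold Lap
  refine tendsto_const_nhds.congr (fun s => ?_)
  ring

theorem Lap.congr {u v : ℂ → ℝ} {z : ℂ} {l m : ℝ} (hu : Lap u z l) (h : ∀ t, u t = v t)
    (hl : l = m) : Lap v z m := by
  have : u = v := funext h
  rw [← this, ← hl]; exact hu

theorem tendsto_lin (a : ℂ) : Tendsto (fun s : ℝ => a * (s : ℂ)) (𝓝[>] 0) (𝓝 0) := by
  have : Continuous (fun s : ℝ => a * (s : ℂ)) := by fun_prop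
  have h := this.tendsto 0
  simp only [ofReal_zero, mul_zero] at h
  exact h.mono_left nhdsWithin_le_nhds

theorem taylor_two {F : ℂ → ℂ} {z : ℂ} (hF : AnalyticAt ℂ F z) :
    ∃ φ : ℂ → ℂ, ContinuousAt φ 0 ∧ ∀ h, F (z + h) = F z + h * deriv F z + h ^ 2 * φ h := by
  have h1 : AnalyticAt ℂ (fun h => F (z + h)) 0 := by
    have : AnalyticAt ℂ F (z + 0) := by simpa using hF
    exact this.comp_of_eq (by fun_prop) rfl
  obtain ⟨φ, hφ, h⟩ := h1.exists_eq_sum_add_pow_mul 2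
  refine ⟨φ, hφ.continuousAt, fun t => ?_⟩
  have := h t
  simp only [Finset.sum_range_succ, Finset.sum_range_zero, iteratedDeriv_zero, iteratedDeriv_one,
    deriv_comp_const_add] at this
  simpa using this

theorem lap_re_mul_conj {F G : ℂ → ℂ} {z : ℂ} (hF : AnalyticAt ℂ F z) (hG : AnalyticAt ℂ G z) :
    Lap (fun t => (F t * (starRingEnd ℂ) (G t)).re) z
      (4 * (deriv F z * (starRingEnd ℂ) (deriv G z)).re) := by
  obtain ⟨φ, hφ, hF2⟩ := taylor_two hF
  obtain ⟨γ, hγ, hG2⟩ := taylor_two hG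
  set F0 := F z
  set F1 := deriv F z
  set G0 := G z
  set G1 := deriv G z
  have tφ : ∀ a : ℂ, Tendsto (fun s : ℝ => φ (a * s)) (𝓝[>] 0) (𝓝 (φ 0)) :=
    fun a => hφ.tendsto.comp (tendsto_lin a)
  have tγ : ∀ a : ℂ, Tendsto (fun s : ℝ => (starRingEnd ℂ) (γ (a * s))) (𝓝[>] 0)
      (𝓝 ((starRingEnd ℂ) (γ 0))) :=
    fun a => (continuous_conj.tendsto _).comp (hγ.tendsto.comp (tendsto_lin a))
  have ts : Tendsto (fun s : ℝ => (s : ℂ)) (𝓝[>] 0) (𝓝 0) := by simpa using tendsto_lin 1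
  let c := starRingEnd ℂ
  let A : ℂ → ℝ → ℂ := fun a s =>
    F0 * (c a) ^ 2 * c (γ (a * s)) + a * c a * F1 * c G1 + a ^ 2 * φ (a * s) * c G0
      + s * (a * (c a) ^ 2 * F1 * c (γ (a * s)) + a ^ 2 * c a * φ (a * s) * c G1)
      + s ^ 2 * (a ^ 2 * (c a) ^ 2 * φ (a * s) * c (γ (a * s)))
  have tA : ∀ a : ℂ, Tendsto (A a) (𝓝[>] 0)
      (𝓝 (F0 * (c a) ^ 2 * c (γ 0) + a * c a * F1 * c G1 + a ^ 2 * φ 0 * c G0)) := by
    intro a
    have := ((((tγ a).const_mul (F0 * (c a) ^ 2)).add_const (a * c a * F1 * c G1)).add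
      (((tφ a).const_mul (a ^ 2)).mul_const (c G0))).add
      (ts.mul (((tγ a).const_mul (a * (c a) ^ 2 * F1)).add
        (((tφ a).const_mul (a ^ 2 * c a)).mul_const (c G1)))) |>.add
      ((ts.pow 2).mul (((tφ a).const_mul (a ^ 2 * (c a) ^ 2)).mul (tγ a)))
    simpa [A, c] using this
  have key : ∀ (a : ℂ) (s : ℝ), F (z + a * s) * c (G (z + a * s)) =
      F0 * c G0 + s * (F0 * c a * c G1 + a * F1 * c G0) + s ^ 2 * A a s := by
    intro a s
    rw [hF2, hG2]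
    simp only [A, c, map_add, map_mul, map_pow, conj_ofReal]
    ring
  have tot := (((tA 1).add (tA I)).add (tA (-1))).add (tA (-I))
  have tre := (continuous_re.tendsto _).comp tot
  have e : (F0 * (c 1) ^ 2 * c (γ 0) + 1 * c 1 * F1 * c G1 + 1 ^ 2 * φ 0 * c G0 +
      (F0 * (c I) ^ 2 * c (γ 0) + I * c I * F1 * c G1 + I ^ 2 * φ 0 * c G0) +
      (F0 * (c (-1)) ^ 2 * c (γ 0) + (-1) * c (-1) * F1 * c G1 + (-1) ^ 2 * φ 0 * c G0) +
      (F0 * (c (-I)) ^ 2 * c (γ 0) + (-I) * c (-I) * F1 * c G1 + (-I) ^ 2 * φ 0 * c G0))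
      = 4 * (F1 * c G1) := by
    simp only [c, map_one, map_neg, conj_I]
    linear_combination (2 * F0 * (starRingEnd ℂ) (γ 0) - 2 * F1 * (starRingEnd ℂ) G1
      + 2 * φ 0 * (starRingEnd ℂ) G0) * I_sq
  rw [e] at tre
  have e2 : (4 * (F1 * c G1)).re = 4 * (F1 * c G1).re := by simp
  rw [e2] at tre
  unfold Lap
  refine tre.congr' ?_
  filter_upwards [self_mem_nhdsWithin] with s hs
  have hs0 : s ≠ 0 := ne_of_gt hs
  have k1 := key 1 s
  have k2 := key I s
  have k3 := key (-1) s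
  have k4 := key (-I) s
  rw [one_mul] at k1
  rw [neg_one_mul, ← sub_eq_add_neg] at k3
  rw [neg_mul, ← sub_eq_add_neg] at k4
  simp only [Function.comp]
  rw [eq_div_iff (pow_ne_zero 2 hs0)]
  have : (F (z + s) * c (G (z + s)) + F (z + I * s) * c (G (z + I * s)) + F (z - s) * c (G (z - s))
      + F (z - I * s) * c (G (z - I * s)) - 4 * (F0 * c G0)) =
      (A 1 s + A I s + A (-1) s + A (-I) s) * ((s ^ 2 : ℝ) : ℂ) := by
    rw [k1, k2, k3, k4]
    simp only [c, map_one, map_neg, conj_I]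
    push_cast
    ring
  have h2 := congrArg Complex.re this
  rw [re_mul_ofReal] at h2
  rw [← h2]
  simp [c, F0, G0]

theorem lap_re {F : ℂ → ℂ} {z : ℂ} (hF : AnalyticAt ℂ F z) : Lap (fun t => (F t).re) z 0 := by
  have := lap_re_mul_conj hF (G := fun _ => 1) analyticAt_const
  exact this.congr (fun t => by simp) (by simp)

theorem lap_normSq {F : ℂ → ℂ} {z : ℂ} (hF : AnalyticAt ℂ F z) :
    Lap (fun t => normSq (F t)) z (4 * normSq (deriv F z)) := by
  have := lap_re_mul_conj hF hF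
  exact this.congr (fun t => by rw [mul_conj]; simp) (by rw [mul_conj]; simp)

/-- The maximum principle. -/
theorem max_principle {K : Set ℂ} (hK : IsCompact K) {u : ℂ → ℝ} (hu : ContinuousOn u K) {B : ℝ}
    (h : ∀ z ∈ K, u z ≤ B ∨ (K ∈ 𝓝 z ∧ ∃ l, 0 ≤ l ∧ Lap u z l)) : ∀ z ∈ K, u z ≤ B := by
  intro z0 hz0
  by_contra hlt
  push Not at hlt
  obtain ⟨R, hR⟩ := hK.isBounded.exists_norm_le
  have hR2 : ∀ z ∈ K, normSq z ≤ R ^ 2 := fun z hz => by
    rw [normSq_eq_norm_sq]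
    exact pow_le_pow_left₀ (norm_nonneg _) (hR z hz) 2
  set δ := (u z0 - B) / (R ^ 2 + 1) with hδ
  have hpos : 0 < R ^ 2 + 1 := by positivity
  have hδ0 : 0 < δ := div_pos (by linarith) hpos
  have hδ1 : δ * (R ^ 2 + 1) = u z0 - B := by rw [hδ]; field_simp
  let v : ℂ → ℝ := fun t => u t + δ * normSq t
  have hv : ContinuousOn v K := hu.add (by fun_prop)
  obtain ⟨z1, hz1, hmax⟩ := hK.exists_isMaxOn ⟨z0, hz0⟩ hv
  have h01 : v z0 ≤ v z1 := hmax hz0
  rcases h z1 hz1 with hle | ⟨hn, l, hl0, hl⟩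
  · have a1 := hR2 z1 hz1
    have a2 := normSq_nonneg z0
    simp only [v] at h01
    nlinarith
  · have hl2 : Lap v z1 (l + δ * (4 * normSq (deriv (fun t : ℂ => t) z1))) :=
      hl.add ((lap_normSq (F := fun t => t) analyticAt_id).const_mul δ)
    simp only [deriv_id'', map_one, mul_one] at hl2
    have ev : ∀ a : ℂ, ∀ᶠ s : ℝ in 𝓝[>] 0, v (z1 + a * s) ≤ v z1 := by
      intro a
      have : Tendsto (fun s : ℝ => z1 + a * (s : ℂ)) (𝓝[>] 0) (𝓝 z1) := by
        simpa using (tendsto_lin a).const_add z1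
      filter_upwards [this hn] with s hs
      exact hmax hs
    have : l + δ * 4 ≤ 0 := by
      refine le_of_tendsto hl2 ?_
      filter_upwards [ev 1, ev I, ev (-1), ev (-I)] with s h1 h2 h3 h4
      rw [one_mul] at h1
      rw [neg_one_mul, ← sub_eq_add_neg] at h3
      rw [neg_mul, ← sub_eq_add_neg] at h4
      exact div_nonpos_of_nonpos_of_nonneg (by linarith) (by positivity)
    linarith

end Pool.Agent.Lib.MP_08f711_an
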