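import Mathlib
import Pool.Agent.Lib.MP_08f711_an.MaxPrinciple

/-!
The defining function of the domain and a Schwarz type estimate for analytic discs in it.
-/

open Complex Filter Topology Set Metric Asymptotics

namespace Pool.Agent.Lib.MP_08f711_an

/-- The part of the defining function that depends on the first variable. -/
noncomputable def Q (z : ℂ) : ℝ := normSq z ^ 3 - 6 / 5 * normSq z * (z ^ 4).re + normSq z ^ 4

/-- The defining function. -/
noncomputable def rho (x : ℂ × ℂ) : ℝ := x.2.re + normSq x.2 + Q x.1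

theorem abs_re_pow_four (z : ℂ) : |(z ^ 4).re| ≤ normSq z ^ 2 := by
  refine (abs_re_le_norm _).trans_eq ?_
  rw [norm_pow, normSq_eq_norm_sq]
  ring

theorem normSq_pow_three (z : ℂ) : normSq z ^ 3 = ‖z‖ ^ 6 := by
  rw [normSq_eq_norm_sq]; ring

theorem Q_lower' (z : ℂ) : -(normSq z ^ 3) / 5 + normSq z ^ 4 ≤ Q z := by
  have h := (abs_le.mp (abs_re_pow_four z)).2
  have h0 := normSq_nonneg z
  unfold Q
  nlinarith [mul_le_mul_of_nonneg_left h h0]

theorem Q_lower (z : ℂ) : -(‖z‖ ^ 6) / 5 ≤ Q z := by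
  have := Q_lower' z
  rw [normSq_pow_three] at this
  have h0 : 0 ≤ normSq z ^ 4 := by have := normSq_nonneg z; positivity
  linarith

theorem Q_upper {z : ℂ} (hz : ‖z‖ ≤ 1) : Q z ≤ 16 / 5 * ‖z‖ ^ 6 := by
  have h := (abs_le.mp (abs_re_pow_four z)).1
  have h0 := normSq_nonneg z
  have h1 : normSq z ≤ 1 := by rw [normSq_eq_norm_sq]; nlinarith [norm_nonneg z]
  rw [← normSq_pow_three]
  unfold Q
  have h2 : normSq z ^ 4 ≤ normSq z ^ 3 := pow_le_pow_of_le_one h0 h1 (by norm_num)
  nlinarith [mul_le_mul_of_nonneg_left h h0]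

theorem Q_real {s : ℝ} (hs : s ^ 2 ≤ 1 / 10) : Q s ≤ -(s ^ 6) / 10 := by
  unfold Q
  have : ((s : ℂ) ^ 4).re = s ^ 4 := by rw [← ofReal_pow, ofReal_re]
  rw [this, normSq_ofReal]
  have h6 : 0 ≤ s ^ 6 := by positivity
  nlinarith [mul_le_mul_of_nonneg_left hs h6]

theorem Q_I_mul (z : ℂ) : Q (I * z) = Q z := by
  unfold Q
  have : (I * z) ^ 4 = z ^ 4 := by rw [mul_pow, I_pow_four, one_mul]
  rw [this, map_mul, normSq_I, one_mul]

theorem Q_zero : Q 0 = 0 := by simp [Q]

theorem continuous_Q : Continuous Q := by unfold Q; fun_prop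

theorem continuous_rho : Continuous rho := by
  unfold rho
  have := continuous_Q
  fun_prop

theorem Q_eq (z : ℂ) :
    Q z = normSq (z ^ 3) - 6 / 5 * (z ^ 5 * (starRingEnd ℂ) z).re + normSq (z ^ 4) := by
  have : z ^ 5 * (starRingEnd ℂ) z = (normSq z : ℂ) * z ^ 4 := by rw [← mul_conj]; ring
  rw [this, re_ofReal_mul, map_pow, map_pow]
  unfold Q
  ring

theorem lap_rho {Z W : ℂ → ℂ} {t : ℂ} (hZ : AnalyticAt ℂ Z t) (hW : AnalyticAt ℂ W t) :
    ∃ l, 12 * normSq (Z t) ^ 2 * normSq (deriv Z t) + 4 * normSq (deriv W t) ≤ l ∧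
      Lap (fun s => rho (Z s, W s)) t l := by
  have h1 := lap_re hW
  have h2 := lap_normSq hW
  have h3 := lap_normSq (hZ.fun_pow 3)
  have h4 := (lap_re_mul_conj (hZ.fun_pow 5) hZ).const_mul (6 / 5)
  have h5 := lap_normSq (hZ.fun_pow 4)
  refine ⟨_, ?_, ((h1.add h2).add ((h3.sub h4).add h5)).congr (fun s => ?_) rfl⟩
  · have hd := hZ.differentiableAt
    rw [deriv_fun_pow hd, deriv_fun_pow hd, deriv_fun_pow hd]
    have e : ((5 : ℕ) : ℂ) * Z t ^ (5 - 1) * deriv Z t * (starRingEnd ℂ) (deriv Z t) =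
        ((5 * normSq (deriv Z t) : ℝ) : ℂ) * Z t ^ 4 := by
      push_cast
      rw [← mul_conj]; ring
    rw [e, re_ofReal_mul]
    simp only [map_mul, map_pow, normSq_natCast]
    have h := (abs_le.mp (abs_re_pow_four (Z t))).2
    have h0 := normSq_nonneg (Z t)
    have h0' := normSq_nonneg (deriv Z t)
    have h6 : 0 ≤ normSq (Z t) ^ 3 * normSq (deriv Z t) := by positivity
    norm_num
    nlinarith [mul_le_mul_of_nonneg_left h h0']
  · simp only [rho, Q_eq]

theorem analytic_dslope {F : ℂ → ℂ} {c t : ℂ} (hc : AnalyticAt ℂ F c) (ht : AnalyticAt ℂ F t) :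
    AnalyticAt ℂ (dslope F c) t := by
  have hU : IsOpen {x | AnalyticAt ℂ F x} := isOpen_analyticAt ℂ F
  have : DifferentiableOn ℂ F {x | AnalyticAt ℂ F x} :=
    fun x hx => hx.differentiableAt.differentiableWithinAt
  exact ((differentiableOn_dslope (hU.mem_nhds hc)).mpr this).analyticAt (hU.mem_nhds ht)

/-- Schwarz type estimate for the first component of an analytic disc. -/
theorem first_bound {Z W : ℂ → ℂ} {r x : ℝ} (hr : 0 < r)
    (hZ : ∀ t ∈ closedBall (0 : ℂ) r, AnalyticAt ℂ Z t)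
    (hW : ∀ t ∈ closedBall (0 : ℂ) r, AnalyticAt ℂ W t)
    (hρ : ∀ t ∈ closedBall (0 : ℂ) r, rho (Z t, W t) ≤ 0) (hZ0 : Z 0 = 0)
    (hx : rho (0, W 0) = -x) {t1 : ℂ} (ht1 : ‖t1‖ ≤ r / 2) : ‖Z t1‖ ^ 6 ≤ 12 * x := by
  let c := starRingEnd ℂ
  let F : ℂ → ℂ := fun t => Z t ^ 3
  have hF : ∀ t ∈ closedBall (0 : ℂ) r, AnalyticAt ℂ F t := fun t ht => (hZ t ht).fun_pow 3
  have ht1' : t1 ∈ closedBall (0 : ℂ) r := by rw [mem_closedBall_zero_iff]; linarith
  set F1 := F t1 with hF1
  set μ := F1 / 4 with hμ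
  let S : ℂ → ℂ := fun t => (1 - c t1 * t / (r : ℂ) ^ 2)⁻¹
  have hsmall : ∀ t ∈ closedBall (0 : ℂ) r, ‖c t1 * t / (r : ℂ) ^ 2‖ ≤ 1 / 2 := by
    intro t ht
    rw [mem_closedBall_zero_iff] at ht
    rw [norm_div, norm_mul, norm_pow, norm_real, Real.norm_of_nonneg hr.le, RCLike.norm_conj,
      div_le_iff₀ (by positivity)]
    have := mul_le_mul ht1 ht (norm_nonneg _) (by positivity)
    nlinarith
  have hden : ∀ t ∈ closedBall (0 : ℂ) r, 1 / 2 ≤ ‖1 - c t1 * t / (r : ℂ) ^ 2‖ := by
    intro t ht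
    have h1 := hsmall t ht
    have h2 := norm_sub_norm_le (1 : ℂ) (c t1 * t / (r : ℂ) ^ 2)
    rw [norm_one] at h2
    linarith
  have hS : ∀ t ∈ closedBall (0 : ℂ) r, AnalyticAt ℂ S t := by
    intro t ht
    refine AnalyticAt.inv (by fun_prop) (fun h => ?_)
    have := hden t ht
    rw [h, norm_zero] at this
    linarith
  let H : ℂ → ℂ := fun t => c μ * t * dslope F t1 t + μ * c F1 * S t
  have hH : ∀ t ∈ closedBall (0 : ℂ) r, AnalyticAt ℂ H t := by
    intro t ht
    have h1 := analytic_dslope (hF t1 ht1') (hF t ht)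
    have h2 := hS t ht
    simp only [H]
    fun_prop
  let u : ℂ → ℝ := fun t => rho (Z t, W t) - 1 / 3 * normSq (F t) + 2 / 3 * (H t).re
  have hu : ContinuousOn u (closedBall 0 r) := by
    intro t ht
    have h1 := (hZ t ht).continuousAt
    have h2 := (hW t ht).continuousAt
    have h3 := (hF t ht).continuousAt
    have h4 := (hH t ht).continuousAt
    have h5 := continuous_rho
    refine ContinuousAt.continuousWithinAt ?_
    simp only [u]
    fun_prop
  have hmax := max_principle (isCompact_closedBall (0 : ℂ) r) hu (B := 4 / 3 * normSq μ) (by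
    intro t ht
    rcases (mem_closedBall_zero_iff.mp ht).eq_or_lt with he | hlt
    · left
      have ht0 : t ≠ 0 := by
        intro h; rw [h, norm_zero] at he; linarith
      have htt : t * c t = (r : ℂ) ^ 2 := by
        rw [mul_conj, normSq_eq_norm_sq, he]; push_cast; ring
      have htt1 : t - t1 ≠ 0 := by
        intro h
        rw [sub_eq_zero] at h
        rw [h] at he
        linarith
      have hcS : c (S t) * (t - t1) = t := by
        have hct : c t ≠ 0 := by simpa [c] using ht0
        have : c (S t) = (1 - t1 * c t / (r : ℂ) ^ 2)⁻¹ := by simp [S, c]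
        rw [this, ← htt]
        field_simp
      have hFt : F t = F1 + (t - t1) * dslope F t1 t := by
        have := sub_smul_dslope F t1 t
        rw [smul_eq_mul] at this
        rw [this]; ring
      have hre : (H t).re = (F t * c (μ * S t)).re := by
        have e1 : F t * c (μ * S t) = c μ * t * dslope F t1 t + c (μ * c F1 * S t) := by
          simp only [map_mul]
          have : c (c F1) = F1 := conj_conj F1
          rw [this, hFt]
          linear_combination (c μ * dslope F t1 t) * hcS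
        rw [e1]
        simp only [H, add_re, c, conj_re]
      have hn := normSq_nonneg (F t - μ * S t)
      rw [normSq_sub] at hn
      have hSn : normSq (S t) ≤ 4 := by
        rw [normSq_eq_norm_sq]
        have h1 : ‖S t‖ ≤ 2 := by
          simp only [S, norm_inv]
          have := inv_anti₀ (by norm_num) (hden t ht)
          simpa using this
        nlinarith [norm_nonneg (S t)]
      have hm : normSq (μ * S t) ≤ 4 * normSq μ := by
        rw [map_mul]; nlinarith [normSq_nonneg μ]
      have := hρ t ht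
      simp only [u]
      rw [hre]
      simp only [c] at *
      linarith
    · right
      refine ⟨closedBall_mem_nhds_of_mem (mem_ball_zero_iff.mpr hlt), ?_⟩
      obtain ⟨l, hl, hlap⟩ := lap_rho (hZ t ht) (hW t ht)
      refine ⟨_, ?_, (hlap.sub ((lap_normSq (hF t ht)).const_mul (1 / 3))).add
        ((lap_re (hH t ht)).const_mul (2 / 3))⟩
      have hd := (hZ t ht).differentiableAt
      simp only [F]
      rw [deriv_fun_pow hd]
      simp only [map_mul, map_pow, normSq_natCast]
      have := normSq_nonneg (deriv W t)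
      norm_num
      linarith) 0 (mem_closedBall_self hr.le)
  have hH0 : (H 0).re = normSq F1 / 4 := by
    have : H 0 = ((normSq F1 / 4 : ℝ) : ℂ) := by
      simp only [H, S, hμ, c]
      push_cast
      rw [← mul_conj]
      simp
      ring
    rw [this, ofReal_re]
  have hμn : normSq μ = normSq F1 / 16 := by
    rw [hμ, map_div₀]
    norm_num
  have hF0 : F 0 = 0 := by simp [F, hZ0]
  simp only [u, hZ0, hx, hH0, hμn, hF0, map_zero] at hmax
  have : normSq F1 = ‖Z t1‖ ^ 6 := by
    simp only [hF1, F, map_pow, normSq_pow_three]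
  linarith

end Pool.Agent.Lib.MP_08f711_an
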