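import Mathlib
import Pool.Agent.Lib.MP_08f711_an.Rho

/-!
Estimates on horizontal discs for a holomorphic map that is invariant under the rotation
of order four and fixes the slice where the first coordinate vanishes.
-/

open Complex Filter Topology Set Metric Asymptotics

namespace Pool.Agent.Lib.MP_08f711_an

theorem isLittleO_of_order {f : ℂ → ℂ} (hf : AnalyticAt ℂ f 0) {n : ℕ}
    (h : ((n + 1 : ℕ) : ℕ∞) ≤ analyticOrderAt f 0) : f =o[𝓝 0] fun t => ‖t‖ ^ n := by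
  obtain ⟨g, hg, he⟩ := (natCast_le_analyticOrderAt hf).mp h
  have h1 : (fun t : ℂ => t ^ (n + 1) * g t) =O[𝓝 0] fun t => ‖t‖ ^ (n + 1) := by
    have a1 : (fun t : ℂ => t ^ (n + 1)) =O[𝓝 0] fun t => ‖t‖ ^ (n + 1) := by
      refine IsBigO.of_bound 1 (Eventually.of_forall fun t => by simp)
    have a2 : g =O[𝓝 0] fun _ => (1 : ℝ) := hg.continuousAt.tendsto.isBigO_one ℝ
    simpa using a1.mul a2
  refine (h1.congr' ?_ EventuallyEq.rfl).trans_isLittleO (isLittleO_norm_pow_norm_pow (by omega))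
  filter_upwards [he] with t ht
  simp [ht]

theorem order_of_isLittleO {f : ℂ → ℂ} (hf : AnalyticAt ℂ f 0) {n : ℕ}
    (h : f =o[𝓝 0] fun t => ‖t‖ ^ n) : ((n + 1 : ℕ) : ℕ∞) ≤ analyticOrderAt f 0 := by
  generalize hord : analyticOrderAt f 0 = r
  cases r with
  | top => exact le_top
  | coe m =>
    obtain ⟨g, hg, hg0, he⟩ := hf.analyticOrderAt_eq_natCast.mp hord
    by_contra hlt
    have hmn : m ≤ n := by
      have : ¬ (n + 1 ≤ m) := fun h => hlt (by exact_mod_cast h)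
      omega
    have h1 : f =o[𝓝 0] fun t => ‖t‖ ^ m := by
      rcases hmn.eq_or_lt with rfl | hl
      · exact h
      · exact h.trans (isLittleO_norm_pow_norm_pow hl)
    have hpos : 0 < ‖g 0‖ := norm_pos_iff.mpr hg0
    have h2 := h1.bound (c := ‖g 0‖ / 2) (by positivity)
    have h3 : ∀ᶠ t in 𝓝 (0 : ℂ), ‖g 0‖ / 2 < ‖g t‖ :=
      hg.continuousAt.norm.eventually_const_lt (by linarith)
    have h4 : ∀ᶠ t in 𝓝[≠] (0 : ℂ), False := by
      filter_upwards [self_mem_nhdsWithin, nhdsWithin_le_nhds h2, nhdsWithin_le_nhds h3,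
        nhdsWithin_le_nhds he] with t h0 a1 a2 a3
      have ht : 0 < ‖t‖ ^ m := pow_pos (norm_pos_iff.mpr h0) m
      rw [a3, sub_zero, norm_smul, norm_pow, Real.norm_of_nonneg ht.le] at a1
      nlinarith
    exact h4.exists.elim fun _ h => h

theorem order_of_symm {f : ℂ → ℂ} (hf : AnalyticAt ℂ f 0) (hs : ∀ᶠ t in 𝓝 0, f (I * t) = f t)
    {k : ℕ} (h : ((4 * k + 1 : ℕ) : ℕ∞) ≤ analyticOrderAt f 0) :
    ((4 * k + 4 : ℕ) : ℕ∞) ≤ analyticOrderAt f 0 := by
  generalize hord : analyticOrderAt f 0 = r at h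
  cases r with
  | top => exact le_top
  | coe m =>
    obtain ⟨g, hg, hg0, he⟩ := hf.analyticOrderAt_eq_natCast.mp hord
    have hm : 4 * k + 1 ≤ m := by exact_mod_cast h
    have ht : Tendsto (fun t : ℂ => I * t) (𝓝 0) (𝓝 0) := by
      have : Continuous (fun t : ℂ => I * t) := by fun_prop
      simpa using this.tendsto 0
    have h1 : ∀ᶠ t in 𝓝[≠] (0 : ℂ), I ^ m * g (I * t) = g t := by
      filter_upwards [self_mem_nhdsWithin, nhdsWithin_le_nhds hs, nhdsWithin_le_nhds he,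
        nhdsWithin_le_nhds (ht he)] with t h0 a1 a2 a3
      have a3' : f (I * t) = (I * t - 0) ^ m • g (I * t) := a3
      rw [a3', a2] at a1
      simp only [sub_zero, smul_eq_mul, mul_pow] at a1
      have : t ^ m ≠ 0 := pow_ne_zero m h0
      exact mul_left_cancel₀ this (by linear_combination a1)
    have t1 : Tendsto (fun t => I ^ m * g (I * t)) (𝓝[≠] 0) (𝓝 (I ^ m * g 0)) :=
      ((hg.continuousAt.tendsto.comp ht).const_mul _).mono_left nhdsWithin_le_nhds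
    have t2 : Tendsto g (𝓝[≠] 0) (𝓝 (g 0)) := hg.continuousAt.tendsto.mono_left nhdsWithin_le_nhds
    have h2 := tendsto_nhds_unique_of_eventuallyEq t1 t2 h1
    have h3 : I ^ m = 1 := mul_right_cancel₀ hg0 (by rw [h2, one_mul])
    have h4 : 4 ∣ m := Complex.isPrimitiveRoot_I.dvd_of_pow_eq_one m h3
    have : 4 * k + 4 ≤ m := by omega
    exact_mod_cast this

theorem isLittleO_of_symm {f : ℂ → ℂ} (hf : AnalyticAt ℂ f 0) (hs : ∀ᶠ t in 𝓝 0, f (I * t) = f t)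
    {k : ℕ} (h : f =o[𝓝 0] fun t => ‖t‖ ^ (4 * k)) : f =o[𝓝 0] fun t => ‖t‖ ^ (4 * k + 3) :=
  isLittleO_of_order hf (order_of_symm hf hs (order_of_isLittleO hf h))

theorem schwarz_pow {f : ℂ → ℂ} {R M : ℝ} {n : ℕ} (hf : ∀ t ∈ ball (0 : ℂ) R, AnalyticAt ℂ f t)
    (hM : ∀ t ∈ ball (0 : ℂ) R, ‖f t‖ ≤ M) (h0 : f 0 = 0) (ho : f =o[𝓝 0] fun t => ‖t‖ ^ n)
    {t : ℂ} (ht : t ∈ ball (0 : ℂ) R) : ‖f t‖ ≤ M * (‖t‖ / R) ^ (n + 1) := by
  have := dist_le_mul_div_pow_of_mapsTo_ball_of_isLittleO (f := f) (c := 0) (R₁ := R) (R₂ := M)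
    (n := n) (fun t ht => (hf t ht).differentiableAt.differentiableWithinAt)
    (fun t ht => by simpa [h0] using hM t ht) (by simpa [h0] using ho) ht
  simpa [h0] using this

theorem disc_bounds {Z W : ℂ → ℂ} {r x : ℝ} {w : ℂ} (hr : 0 < r) (hx0 : 0 < x)
    (hZ : ∀ t ∈ closedBall (0 : ℂ) r, AnalyticAt ℂ Z t)
    (hW : ∀ t ∈ closedBall (0 : ℂ) r, AnalyticAt ℂ W t)
    (hρ : ∀ t ∈ closedBall (0 : ℂ) r, rho (Z t, W t) ≤ 0) (hZ0 : Z 0 = 0) (hW0 : W 0 = w)
    (hx : rho (0, w) = -x) (hw : ‖w‖ ≤ 1 / 4)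
    (hZs : ∀ t ∈ closedBall (0 : ℂ) r, Z (I * t) = Z t)
    (hWs : ∀ t ∈ closedBall (0 : ℂ) r, W (I * t) = W t) {t : ℂ} (ht : ‖t‖ < r / 4) :
    ‖Z t‖ ^ 6 ≤ 12 * x * (‖t‖ / (r / 2)) ^ 8 ∧ ‖W t - w‖ ≤ 16 * x * (‖t‖ / (r / 4)) ^ 4 ∧
      (((fun t => W t - w) =o[𝓝 0] fun t => ‖t‖ ^ 4) →
        ‖W t - w‖ ≤ 16 * x * (‖t‖ / (r / 4)) ^ 8) := by
  have hsub2 : ∀ s ∈ ball (0 : ℂ) (r / 2), s ∈ closedBall (0 : ℂ) r := fun s hs => by
    rw [mem_ball_zero_iff] at hs; rw [mem_closedBall_zero_iff]; linarith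
  have hsub4 : ∀ s ∈ ball (0 : ℂ) (r / 4), s ∈ ball (0 : ℂ) (r / 2) := fun s hs => by
    rw [mem_ball_zero_iff] at *; linarith
  have h0 : (0 : ℂ) ∈ closedBall (0 : ℂ) r := mem_closedBall_self hr.le
  have hnh : closedBall (0 : ℂ) r ∈ 𝓝 (0 : ℂ) := closedBall_mem_nhds _ hr
  have hb : ∀ s ∈ ball (0 : ℂ) (r / 2), ‖Z s‖ ^ 6 ≤ 12 * x := fun s hs =>
    first_bound hr hZ hW hρ hZ0 (by rw [hW0, hx]) (mem_ball_zero_iff.mp hs).le
  have hE : ∀ s ∈ ball (0 : ℂ) (r / 4), ‖W s - w‖ ≤ 16 * x := by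
    intro s hs
    let b : ℂ := w + 1 / 2
    have hbn : 1 / 4 ≤ ‖b‖ := by
      have := norm_sub_norm_le (1 / 2 : ℂ) (-w)
      rw [norm_neg, sub_neg_eq_add, add_comm] at this
      norm_num at this
      simp only [b]
      norm_num
      linarith
    have hbc := borelCaratheodory_zero (f := fun s => (W s - w) * (starRingEnd ℂ) b) (M := 2 * x)
      (R := r / 2) (z := s) (by positivity)
      (fun s hs => ((hW s (hsub2 s hs)).differentiableAt.sub_const w).mul_const _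
        |>.differentiableWithinAt)
      (fun s hs => by
        have h1 := hρ s (hsub2 s hs)
        have h2 := hb s hs
        have h3 := Q_lower (Z s)
        have h4 := normSq_nonneg (W s - w)
        simp only [rho, Q_zero, normSq_apply] at h1 hx
        simp only [mem_ofPred_eq, b, mul_re, sub_re, sub_im, conj_re, conj_im, add_re, add_im,
          normSq_apply] at h4 ⊢
        norm_num
        nlinarith)
      (by positivity) (hsub4 s hs) (by simp [hW0])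
    rw [norm_mul, RCLike.norm_conj] at hbc
    rw [mem_ball_zero_iff] at hs
    have h5 : 2 * (2 * x) * ‖s‖ / (r / 2 - ‖s‖) ≤ 4 * x := by
      rw [div_le_iff₀ (by linarith)]
      nlinarith
    nlinarith [norm_nonneg (W s - w)]
  have hWa : AnalyticAt ℂ (fun s => W s - w) 0 := (hW 0 h0).sub analyticAt_const
  have hWsym : ∀ᶠ s in 𝓝 (0 : ℂ), (fun s => W s - w) (I * s) = (fun s => W s - w) s := by
    filter_upwards [hnh] with s hs
    simp only [hWs s hs]
  have hWan : ∀ s ∈ ball (0 : ℂ) (r / 4), AnalyticAt ℂ (fun s => W s - w) s := fun s hs =>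
    (hW s (hsub2 s (hsub4 s hs))).sub analyticAt_const
  refine ⟨?_, ?_, fun ho => ?_⟩
  · have hZa : AnalyticAt ℂ (fun s => Z s ^ 6) 0 := (hZ 0 h0).fun_pow 6
    have hsym : ∀ᶠ s in 𝓝 (0 : ℂ), (fun s => Z s ^ 6) (I * s) = (fun s => Z s ^ 6) s := by
      filter_upwards [hnh] with s hs
      simp only [hZs s hs]
    have ho : (fun s => Z s ^ 6) =o[𝓝 0] fun s => ‖s‖ ^ (4 * 1) := by
      have h1 : Z =O[𝓝 0] fun s => ‖s‖ := by
        have := (hZ 0 h0).differentiableAt.isBigO_sub.norm_right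
        simp only [hZ0, sub_zero] at this
        exact this
      exact (h1.pow 6).trans_isLittleO (isLittleO_norm_pow_norm_pow (by norm_num))
    have := schwarz_pow (f := fun s => Z s ^ 6) (R := r / 2) (M := 12 * x) (n := 7)
      (fun s hs => (hZ s (hsub2 s hs)).fun_pow 6) (fun s hs => by rw [norm_pow]; exact hb s hs)
      (by simp [hZ0]) (isLittleO_of_symm hZa hsym ho) (t := t)
      (hsub4 t (mem_ball_zero_iff.mpr ht))
    rwa [norm_pow] at this
  · have ho : (fun s => W s - w) =o[𝓝 0] fun s => ‖s‖ ^ (4 * 0) := by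
      simp only [mul_zero, pow_zero]
      rw [isLittleO_one_iff]
      have := hWa.continuousAt.tendsto
      simpa [hW0] using this
    exact schwarz_pow (n := 3) hWan hE (by simp [hW0]) (isLittleO_of_symm hWa hWsym ho)
      (mem_ball_zero_iff.mpr ht)
  · exact schwarz_pow (n := 7) hWan hE (by simp [hW0]) (isLittleO_of_symm (k := 1) hWa hWsym ho)
      (mem_ball_zero_iff.mpr ht)

/-- A holomorphic map from the part of the domain near the origin into the closed domain,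
invariant under the rotation and fixing the slice. -/
structure Setup (R : ℝ) (T : ℂ × ℂ → ℂ × ℂ) : Prop where
  pos : 0 < R
  le : R ≤ 1 / 4
  diff : DifferentiableOn ℂ T {x | ‖x‖ < R ∧ rho x < 0}
  neg : ∀ x, ‖x‖ < R → rho x < 0 → rho (T x) ≤ 0
  symm : ∀ z w, ‖(z, w)‖ < R → rho (z, w) < 0 → T (I * z, w) = T (z, w)
  fix : ∀ w, ‖w‖ < R → rho (0, w) < 0 → T (0, w) = (0, w)

theorem isOpen_near (R : ℝ) : IsOpen {x : ℂ × ℂ | ‖x‖ < R ∧ rho x < 0} :=
  (isOpen_lt continuous_norm continuous_const).inter (isOpen_lt continuous_rho continuous_const)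

theorem Setup.analytic_comp {R : ℝ} {T : ℂ × ℂ → ℂ × ℂ} (h : Setup R T) {γ : ℂ → ℂ × ℂ}
    (hγ : Differentiable ℂ γ) {t : ℂ} (h1 : ‖γ t‖ < R) (h2 : rho (γ t) < 0) :
    AnalyticAt ℂ (fun s => (T (γ s)).1) t ∧ AnalyticAt ℂ (fun s => (T (γ s)).2) t := by
  have : AnalyticAt ℂ (fun s => T (γ s)) t := by
    rw [analyticAt_iff_eventually_differentiableAt]
    have := hγ.continuous.continuousAt.preimage_mem_nhds ((isOpen_near R).mem_nhds ⟨h1, h2⟩)
    filter_upwards [this] with s hs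
    exact (h.diff.differentiableAt ((isOpen_near R).mem_nhds hs)).comp s (hγ s)
  exact ⟨analyticAt_fst.comp this, analyticAt_snd.comp this⟩

theorem norm_mk_lt {R : ℝ} {z w : ℂ} (hz : ‖z‖ < R) (hw : ‖w‖ < R) : ‖(z, w)‖ < R := by
  rw [Prod.norm_mk]; exact max_lt hz hw

theorem rho_eq (z w : ℂ) : rho (z, w) = rho (0, w) + Q z := by simp [rho, Q_zero]

theorem Setup.horiz {R : ℝ} {T : ℂ × ℂ → ℂ × ℂ} (h : Setup R T) {r : ℝ} {w : ℂ} (hr : 0 < r)
    (hrR : r < R) (hw : ‖w‖ < R) (hx : rho (0, w) = -(4 * r ^ 6)) {t : ℂ} (ht : ‖t‖ < r / 4) :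
    rho (t, w) < 0 ∧ ‖(T (t, w)).1‖ ^ 6 ≤ 12288 * ‖t‖ ^ 8 / r ^ 2 ∧
      ‖(T (t, w)).2 - w‖ ≤ 16384 * ‖t‖ ^ 4 * r ^ 2 ∧
      (((fun t => (T (t, w)).2 - w) =o[𝓝 0] fun t => ‖t‖ ^ 4) →
        ‖(T (t, w)).2 - w‖ ≤ 4194304 * ‖t‖ ^ 8 / r ^ 2) := by
  have hR := h.le
  have hin : ∀ s ∈ closedBall (0 : ℂ) r, ‖(s, w)‖ < R ∧ rho (s, w) < 0 := by
    intro s hs
    rw [mem_closedBall_zero_iff] at hs
    refine ⟨norm_mk_lt (by linarith) hw, ?_⟩
    rw [rho_eq, hx]
    have h1 := Q_upper (z := s) (by linarith)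
    have h2 : ‖s‖ ^ 6 ≤ r ^ 6 := pow_le_pow_left₀ (norm_nonneg _) hs 6
    have h3 : 0 < r ^ 6 := by positivity
    linarith
  have hdiff : Differentiable ℂ (fun s : ℂ => (s, w)) := by fun_prop
  have hfix := h.fix w hw (hin 0 (mem_closedBall_self hr.le)).2
  obtain ⟨a, b, c⟩ := disc_bounds (Z := fun s => (T (s, w)).1) (W := fun s => (T (s, w)).2)
    (x := 4 * r ^ 6) (w := w) hr (by positivity)
    (fun s hs => (h.analytic_comp hdiff (hin s hs).1 (hin s hs).2).1)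
    (fun s hs => (h.analytic_comp hdiff (hin s hs).1 (hin s hs).2).2)
    (fun s hs => h.neg _ (hin s hs).1 (hin s hs).2) (by simp [hfix]) (by simp [hfix]) hx
    (by linarith) (fun s hs => by simp only [h.symm s w (hin s hs).1 (hin s hs).2])
    (fun s hs => by simp only [h.symm s w (hin s hs).1 (hin s hs).2]) ht
  refine ⟨(hin t (by rw [mem_closedBall_zero_iff]; linarith)).2, a.trans_eq ?_, b.trans_eq ?_,
    fun ho => (c ho).trans_eq ?_⟩
  · field_simp; ring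
  · field_simp; ring
  · field_simp; ring

end Pool.Agent.Lib.MP_08f711_an
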