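import Mathlib
import Pool.Agent.Lib.MP_08f711_an.Horizontal

/-!
Maximum principle arguments on vertical slices: the invariant map cannot exist.
-/

open Complex Filter Topology Set Metric Asymptotics

namespace Pool.Agent.Lib.MP_08f711_an

theorem exists_sixth_root {x : ℝ} (hx : 0 < x) : ∃ r : ℝ, 0 < r ∧ 4 * r ^ 6 = x := by
  refine ⟨(x / 4) ^ (((6 : ℕ) : ℝ)⁻¹), by positivity, ?_⟩
  rw [Real.rpow_inv_natCast_pow (by positivity) (by norm_num)]
  ring

theorem rho_zero (w : ℂ) : rho (0, w) = w.re + normSq w := by simp [rho, Q_zero]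

theorem isCompact_of_bounds {K : Set ℂ} (hK : IsClosed K) {M : ℝ} (h : ∀ w ∈ K, ‖w‖ ≤ M) :
    IsCompact K :=
  (isCompact_closedBall (0 : ℂ) M).of_isClosed_subset hK
    (fun w hw => mem_closedBall_zero_iff.mpr (h w hw))

theorem Setup.littleO_four {R : ℝ} {T : ℂ × ℂ → ℂ × ℂ} (h : Setup R T) {w0 : ℂ}
    (hw0 : ‖w0‖ ≤ R ^ 6) (hρ0 : rho (0, w0) < 0) :
    (fun t => (T (t, w0)).2 - w0) =o[𝓝 0] fun t => ‖t‖ ^ 4 := by
  have hR := h.pos
  have hR4 := h.le
  have hR6 : 5 * R ^ 6 < R := by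
    have : R ^ 5 ≤ (1 / 4) ^ 5 := pow_le_pow_left₀ hR.le hR4 5
    nlinarith
  have hR60 : 0 < R ^ 6 := by positivity
  rw [isLittleO_iff]
  intro ε hε
  set x0 := -w0.re with hx0
  have hx0pos : 0 < x0 := by
    rw [rho_zero] at hρ0
    linarith [normSq_nonneg w0]
  have hx0le : x0 ≤ R ^ 6 := by linarith [neg_le_abs w0.re, abs_re_le_norm w0]
  have hy0 : |w0.im| ≤ R ^ 6 := (abs_im_le_norm w0).trans hw0
  set κ := 16384 / (ε * x0 ^ 2) with hκ
  have hκ0 : 0 < κ := by positivity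
  have hκ1 : 16384 ≤ ε * Real.exp (κ * x0 ^ 2) := by
    have h1 := Real.add_one_le_exp (κ * x0 ^ 2)
    have h2 : ε * (κ * x0 ^ 2) = 16384 := by rw [hκ]; field_simp
    nlinarith
  have ev1 : ∀ᶠ z : ℂ in 𝓝 0, 4 * (5 * ‖z‖) ^ 6 ≤ -rho (0, w0) := by
    have : ContinuousAt (fun z : ℂ => 4 * (5 * ‖z‖) ^ 6) 0 := by fun_prop
    exact this.eventually_le_const (by simpa using hρ0)
  have ev2 : ∀ᶠ z : ℂ in 𝓝 0, 25 * ‖z‖ ^ 2 * Real.exp (κ * (2 * x0) ^ 2) ≤ 1 := by
    have : ContinuousAt (fun z : ℂ => 25 * ‖z‖ ^ 2 * Real.exp (κ * (2 * x0) ^ 2)) 0 := by fun_prop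
    exact this.eventually_le_const (by simp)
  filter_upwards [ev1, ev2] with z hz1 hz2
  rcases eq_or_ne z 0 with rfl | hz0
  · simp [h.fix w0 (by linarith) hρ0]
  have hzpos : 0 < ‖z‖ := norm_pos_iff.mpr hz0
  set η := 4 * (5 * ‖z‖) ^ 6 with hη
  have hη0 : 0 < η := by positivity
  let K : Set ℂ := {w | -(2 * x0) ≤ w.re ∧ |w.im - w0.im| ≤ 2 * x0 ∧ rho (0, w) ≤ -η}
  have hcρ : Continuous (fun w : ℂ => rho (0, w)) := continuous_rho.comp (by fun_prop)
  have hci : Continuous (fun w : ℂ => |w.im - w0.im|) := by fun_prop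
  have hKc : IsClosed K :=
    (isClosed_le continuous_const continuous_re).and
      ((isClosed_le hci continuous_const).and (isClosed_le hcρ continuous_const))
  have hre : ∀ w ∈ K, w.re < 0 := by
    intro w hw
    have := hw.2.2
    rw [rho_zero] at this
    linarith [normSq_nonneg w]
  have hKn : ∀ w ∈ K, ‖w‖ ≤ 5 * R ^ 6 := by
    intro w hw
    have h1 := norm_le_abs_re_add_abs_im w
    have h2 : |w.re| ≤ 2 * x0 := abs_le.mpr ⟨hw.1, by linarith [hre w hw]⟩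
    have h3 : |w.im| ≤ |w.im - w0.im| + |w0.im| := by
      have := abs_add_le (w.im - w0.im) w0.im
      simpa using this
    linarith [hw.2.1]
  have hloc : ∀ w ∈ K, ∃ r, 0 < r ∧ r < R ∧ 5 * ‖z‖ ≤ r ∧ rho (0, w) = -(4 * r ^ 6) ∧
      rho (z, w) < 0 ∧ ‖(T (z, w)).2 - w‖ ≤ 16384 * ‖z‖ ^ 4 * r ^ 2 := by
    intro w hw
    obtain ⟨r, hr, hr4⟩ := exists_sixth_root (x := -rho (0, w)) (by linarith [hw.2.2])
    have hrR : r < R := by
      refine lt_of_pow_lt_pow_left₀ 6 hR.le ?_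
      have := hw.1
      rw [rho_zero] at hr4
      linarith [normSq_nonneg w]
    have hzr : 5 * ‖z‖ ≤ r := by
      refine le_of_pow_le_pow_left₀ (n := 6) (by norm_num) hr.le ?_
      linarith [hw.2.2]
    obtain ⟨a, -, b, -⟩ := h.horiz hr hrR (lt_of_le_of_lt (hKn w hw) hR6) (w := w)
      (by linarith) (t := z) (by linarith)
    exact ⟨r, hr, hrR, hzr, by linarith, a, b⟩
  let F : ℂ → ℂ := fun w => ((T (z, w)).2 - w) * exp (κ * (w - w0.im * I + 2 * x0) ^ 2)
  have hF : ∀ w ∈ K, AnalyticAt ℂ F w := by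
    intro w hw
    obtain ⟨r, hr, hrR, hzr, -, a, -⟩ := hloc w hw
    have := (h.analytic_comp (γ := fun w => (z, w)) (by fun_prop)
      (norm_mk_lt (by linarith) (lt_of_le_of_lt (hKn w hw) hR6)) a).2
    simp only [F]
    fun_prop
  have hnorm : ∀ w, ‖F w‖ = ‖(T (z, w)).2 - w‖ *
      Real.exp (κ * ((w.re + 2 * x0) ^ 2 - (w.im - w0.im) ^ 2)) := by
    intro w
    simp only [F]
    rw [norm_mul, norm_exp, re_ofReal_mul]
    congr 3
    simp [pow_two]
  have hmax := max_principle (isCompact_of_bounds hKc hKn) (u := fun w => normSq (F w))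
    (fun w hw => by
      have := (hF w hw).continuousAt
      exact ContinuousAt.continuousWithinAt (by fun_prop))
    (B := (16384 * ‖z‖ ^ 4) ^ 2) (by
      intro w hw
      obtain ⟨r, hr, hrR, hzr, hrρ, -, b⟩ := hloc w hw
      have hr1 : r ^ 2 ≤ 1 := by nlinarith
      have conc : ‖F w‖ ≤ 16384 * ‖z‖ ^ 4 → normSq (F w) ≤ (16384 * ‖z‖ ^ 4) ^ 2 := fun hh => by
        rw [normSq_eq_norm_sq]
        exact pow_le_pow_left₀ (norm_nonneg _) hh 2
      have side : (w.re + 2 * x0) ^ 2 - (w.im - w0.im) ^ 2 ≤ 0 → ‖F w‖ ≤ 16384 * ‖z‖ ^ 4 := by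
        intro hh
        rw [hnorm]
        have h1 : Real.exp (κ * ((w.re + 2 * x0) ^ 2 - (w.im - w0.im) ^ 2)) ≤ 1 :=
          Real.exp_le_one_iff.mpr (mul_nonpos_of_nonneg_of_nonpos hκ0.le hh)
        calc _ ≤ (16384 * ‖z‖ ^ 4 * r ^ 2) * 1 := by gcongr
          _ ≤ (16384 * ‖z‖ ^ 4 * 1) * 1 := by gcongr
          _ = _ := by ring
      have hw1 := hw.1
      have hw2 := hw.2.1
      have hw3 := hw.2.2
      have hw4 := hre w hw
      rcases hw1.eq_or_lt with e1 | l1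
      · left
        refine conc (side ?_)
        rw [← e1]
        nlinarith [sq_nonneg (w.im - w0.im)]
      rcases hw2.eq_or_lt with e2 | l2
      · left
        refine conc (side ?_)
        rw [← sq_abs (w.im - w0.im), e2]
        nlinarith
      rcases hw3.eq_or_lt with e3 | l3
      · left
        refine conc ?_
        have hr5 : r = 5 * ‖z‖ := by
          refine le_antisymm (le_of_pow_le_pow_left₀ (n := 6) (by norm_num) (by positivity) ?_) hzr
          linarith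
        rw [hnorm]
        have h1 : Real.exp (κ * ((w.re + 2 * x0) ^ 2 - (w.im - w0.im) ^ 2)) ≤
            Real.exp (κ * (2 * x0) ^ 2) := by
          refine Real.exp_le_exp.mpr (mul_le_mul_of_nonneg_left ?_ hκ0.le)
          nlinarith [sq_nonneg (w.im - w0.im)]
        calc _ ≤ (16384 * ‖z‖ ^ 4 * r ^ 2) * Real.exp (κ * (2 * x0) ^ 2) := by gcongr
          _ = 16384 * ‖z‖ ^ 4 * (25 * ‖z‖ ^ 2 * Real.exp (κ * (2 * x0) ^ 2)) := by rw [hr5]; ring
          _ ≤ 16384 * ‖z‖ ^ 4 * 1 := by gcongr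
          _ = _ := by ring
      right
      refine ⟨?_, _, ?_, lap_normSq (hF w hw)⟩
      · have ho : IsOpen {w : ℂ | -(2 * x0) < w.re ∧ |w.im - w0.im| < 2 * x0 ∧ rho (0, w) < -η} :=
          (isOpen_lt continuous_const continuous_re).and
            ((isOpen_lt hci continuous_const).and (isOpen_lt hcρ continuous_const))
        exact mem_of_superset (ho.mem_nhds ⟨l1, l2, l3⟩) (fun v hv => ⟨hv.1.le, hv.2.1.le, hv.2.2.le⟩)
      · have := normSq_nonneg (deriv F w)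
        positivity) w0 ⟨by linarith, by simpa using hx0pos.le, by linarith⟩
  rw [normSq_eq_norm_sq] at hmax
  have h1 := le_of_pow_le_pow_left₀ (n := 2) (by norm_num) (by positivity) hmax
  rw [hnorm] at h1
  have e : (w0.re + 2 * x0) ^ 2 - (w0.im - w0.im) ^ 2 = x0 ^ 2 := by rw [hx0]; ring
  rw [e] at h1
  rw [Real.norm_of_nonneg (by positivity)]
  have hE := Real.exp_pos (κ * x0 ^ 2)
  refine le_of_mul_le_mul_right (h1.trans ?_) hE
  have : 0 ≤ ‖z‖ ^ 4 := by positivity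
  nlinarith

theorem Setup.deep {R : ℝ} {T : ℂ × ℂ → ℂ × ℂ} (h : Setup R T) {s Λ : ℝ} {ζ : ℂ} (hs : 0 < s)
    (hs1 : s ≤ 1) (hΛ : 10 ^ 5 ≤ Λ) (h1 : ‖ζ‖ ≤ R ^ 6) (h2 : normSq ζ ≤ s ^ 6 / 2000)
    (h3 : ζ.re ≤ -(8 * Λ ^ 6 * s ^ 6)) : |rho (T (s, ζ)) - ζ.re| ≤ s ^ 6 / 200 := by
  have hR := h.pos
  have hR4 := h.le
  have hR6 : R ^ 6 < R := by
    have : R ^ 5 ≤ (1 / 4) ^ 5 := pow_le_pow_left₀ hR.le hR4 5
    nlinarith
  have hR60 : 0 < R ^ 6 := by positivity
  have hσ : 0 < s ^ 6 := by positivity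
  have hσ1 : s ^ 6 ≤ 1 := pow_le_one₀ hs.le hs1
  have hΛ6 : 1 ≤ Λ ^ 6 := one_le_pow₀ (by linarith)
  have hρ : rho (0, ζ) ≤ -(4 * (Λ * s) ^ 6) := by
    rw [rho_zero, mul_pow]
    nlinarith
  have hΛs : 0 < (Λ * s) ^ 6 := by
    have : 0 < Λ := by linarith
    positivity
  obtain ⟨r, hr, hr4⟩ := exists_sixth_root (x := -rho (0, ζ)) (by linarith)
  have hrR : r < R := by
    refine lt_of_pow_lt_pow_left₀ 6 hR.le ?_
    rw [rho_zero] at hr4
    have : 0 < r ^ 6 := by positivity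
    linarith [normSq_nonneg ζ, neg_le_abs ζ.re, abs_re_le_norm ζ]
  have hrs : Λ * s ≤ r := le_of_pow_le_pow_left₀ (n := 6) (by norm_num) hr.le (by linarith)
  have hrs' : 10 ^ 5 * s ≤ r := le_trans (by gcongr) hrs
  have hn : ‖(s : ℂ)‖ = s := by rw [norm_real, Real.norm_of_nonneg hs.le]
  obtain ⟨-, a, -, c⟩ := h.horiz hr hrR (lt_of_le_of_lt h1 hR6) (w := ζ)
    (by linarith) (t := s) (by rw [hn]; linarith)
  have c' := c (h.littleO_four h1 (by linarith))
  rw [hn] at a c'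
  have hq : s ^ 8 / r ^ 2 ≤ s ^ 6 / 10 ^ 10 := by
    rw [div_le_div_iff₀ (by positivity) (by positivity)]
    have : (10 ^ 5 * s) ^ 2 ≤ r ^ 2 := pow_le_pow_left₀ (by positivity) hrs' 2
    nlinarith
  have a1 : ‖(T (s, ζ)).1‖ ^ 6 ≤ s ^ 6 / 2000 := by
    rw [mul_div_assoc] at a
    linarith
  have c1 : ‖(T (s, ζ)).2 - ζ‖ ≤ s ^ 6 / 2000 := by
    rw [mul_div_assoc] at c'
    linarith
  set Z := (T (s, ζ)).1
  set W := (T (s, ζ)).2
  have hZ1 : ‖Z‖ ≤ 1 := le_of_pow_le_pow_left₀ (n := 6) (by norm_num) zero_le_one (by linarith)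
  have q1 := Q_upper hZ1
  have q2 := Q_lower Z
  have w1 : normSq W ≤ 2 * normSq ζ + 2 * normSq (W - ζ) := by
    simp only [normSq_apply, sub_re, sub_im]
    nlinarith [sq_nonneg (W.re - 2 * ζ.re), sq_nonneg (W.im - 2 * ζ.im)]
  have w2 : normSq (W - ζ) ≤ ‖W - ζ‖ := by
    rw [normSq_eq_norm_sq]
    nlinarith [norm_nonneg (W - ζ)]
  have w3 := abs_le.mp (abs_re_le_norm (W - ζ))
  rw [sub_re] at w3
  have w4 := normSq_nonneg W
  have hz6 : 0 ≤ ‖Z‖ ^ 6 := by positivity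
  have : rho (T (s, ζ)) = W.re + normSq W + Q Z := rfl
  rw [this, abs_le]
  constructor <;> linarith [w3.1, w3.2]

theorem Setup.false_aux {R : ℝ} {T : ℂ × ℂ → ℂ × ℂ} (h : Setup R T) {s Λ A : ℝ} (hs : 0 < s)
    (hsR : s < R) (hΛ : 10 ^ 5 ≤ Λ) (hA : A = 16 * Λ ^ 6)
    (h1 : (A + 20 * A ^ 2) * s ^ 6 ≤ R ^ 6) (h2 : ((A + 20 * A ^ 2) * s ^ 6) ^ 2 ≤ s ^ 6 / 2000) :
    False := by
  have hR := h.pos
  have hR4 := h.le
  have hR6 : R ^ 6 < R := by
    have : R ^ 5 ≤ (1 / 4) ^ 5 := pow_le_pow_left₀ hR.le hR4 5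
    nlinarith
  have hΛ6 : 1 ≤ Λ ^ 6 := one_le_pow₀ (by linarith)
  have hA1 : 1 ≤ A := by linarith
  set σ := s ^ 6 with hσ
  have hσ0 : 0 < σ := by positivity
  set X := A * σ with hX
  set Y := 20 * A ^ 2 * σ with hY
  have hXσ : σ ≤ X := by nlinarith
  have hX0 : 0 < X := by linarith
  let K : Set ℂ := {w | -X ≤ w.re ∧ w.re ≤ σ / 20 ∧ |w.im| ≤ Y}
  have hci : Continuous (fun w : ℂ => |w.im|) := by fun_prop
  have hKc : IsClosed K :=
    (isClosed_le continuous_const continuous_re).and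
      ((isClosed_le continuous_re continuous_const).and (isClosed_le hci continuous_const))
  have hKn : ∀ w ∈ K, ‖w‖ ≤ (A + 20 * A ^ 2) * σ := by
    intro w hw
    have a1 := norm_le_abs_re_add_abs_im w
    have a2 : |w.re| ≤ X := abs_le.mpr ⟨hw.1, by linarith [hw.2.1]⟩
    linarith [hw.2.2]
  have hKs : ∀ w ∈ K, normSq w ≤ σ / 2000 := by
    intro w hw
    rw [normSq_eq_norm_sq]
    exact (pow_le_pow_left₀ (norm_nonneg _) (hKn w hw) 2).trans h2
  have hn : ‖(s : ℂ)‖ = s := by rw [norm_real, Real.norm_of_nonneg hs.le]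
  have hin : ∀ w ∈ K, ‖((s : ℂ), w)‖ < R ∧ rho (s, w) < 0 := by
    intro w hw
    refine ⟨norm_mk_lt (by rwa [hn]) (by linarith [hKn w hw]), ?_⟩
    rw [rho_eq, rho_zero]
    have := Q_real (s := s) (by nlinarith)
    linarith [hw.2.1, hKs w hw]
  have han := fun w (hw : w ∈ K) => h.analytic_comp (γ := fun w => ((s : ℂ), w)) (by fun_prop)
    (hin w hw).1 (hin w hw).2
  have hdeep : ∀ w ∈ K, w.re ≤ -(X / 2) → |rho (T (s, w)) - w.re| ≤ σ / 200 := by
    intro w hw hre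
    refine h.deep hs (by linarith) hΛ ((hKn w hw).trans h1) (hKs w hw) ?_
    rw [hX, hA] at hre
    linarith
  set κ := (σ / 20 + σ / 200) / X with hκ
  have hκX : κ * X = σ / 20 + σ / 200 := by rw [hκ]; field_simp
  have hκ0 : 0 < κ := by positivity
  set δ := σ / 200 / X ^ 2 with hδ
  have hδX : δ * X ^ 2 = σ / 200 := by rw [hδ]; field_simp
  have hδ0 : 0 < δ := by positivity
  have hδY : X + σ / 20 ≤ δ * Y ^ 2 := by
    have e : δ * Y ^ 2 = 2 * A ^ 2 * σ := by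
      rw [hδ, hX, hY]; field_simp; ring
    rw [e, hX]
    nlinarith
  let P : ℂ → ℂ := fun w => (κ - 1 : ℝ) * w + δ * w ^ 2
  have hP : ∀ w, (P w).re = (κ - 1) * w.re + δ * (w.re ^ 2 - w.im ^ 2) := by
    intro w
    simp only [P, add_re, re_ofReal_mul]
    simp [pow_two]
  let u : ℂ → ℝ := fun w => rho ((T (s, w)).1, (T (s, w)).2) + (P w).re
  have hmax := max_principle (isCompact_of_bounds hKc hKn) (u := u)
    (fun w hw => by
      have a1 := (han w hw).1.continuousAt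
      have a2 := (han w hw).2.continuousAt
      have a3 := continuous_rho
      refine ContinuousAt.continuousWithinAt ?_
      simp only [u, P]
      fun_prop)
    (B := -(σ / 20) + κ * (σ / 20) + δ * X ^ 2) (by
      intro w hw
      have hw1 := hw.1
      have hw2 := hw.2.1
      have hw3 := hw.2.2
      have hneg := h.neg _ (hin w hw).1 (hin w hw).2
      have hre2 : w.re ^ 2 ≤ X ^ 2 := by nlinarith
      have him := mul_nonneg hδ0.le (sq_nonneg w.im)
      have hre3 := mul_le_mul_of_nonneg_left hre2 hδ0.le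
      rcases hw1.eq_or_lt with e1 | l1
      · left
        have := (abs_le.mp (hdeep w hw (by linarith))).2
        simp only [u, hP, Prod.mk.eta]
        have e : κ * w.re = -(κ * X) := by rw [← e1]; ring
        have : 0 ≤ κ * (σ / 20) := by positivity
        nlinarith
      rcases hw2.eq_or_lt with e2 | l2
      · left
        simp only [u, hP, Prod.mk.eta]
        have e : κ * w.re = κ * (σ / 20) := by rw [e2]
        nlinarith
      rcases hw3.eq_or_lt with e3 | l3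
      · left
        simp only [u, hP, Prod.mk.eta]
        have e : δ * w.im ^ 2 = δ * Y ^ 2 := by rw [← sq_abs w.im, e3]
        have : κ * w.re ≤ κ * (σ / 20) := mul_le_mul_of_nonneg_left hw2 hκ0.le
        nlinarith
      right
      refine ⟨?_, ?_⟩
      · have ho : IsOpen {w : ℂ | -X < w.re ∧ w.re < σ / 20 ∧ |w.im| < Y} :=
          (isOpen_lt continuous_const continuous_re).and
            ((isOpen_lt continuous_re continuous_const).and (isOpen_lt hci continuous_const))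
        exact mem_of_superset (ho.mem_nhds ⟨l1, l2, l3⟩) (fun v hv => ⟨hv.1.le, hv.2.1.le, hv.2.2.le⟩)
      · obtain ⟨l, hl, hlap⟩ := lap_rho (han w hw).1 (han w hw).2
        have hPa : AnalyticAt ℂ P w := by simp only [P]; fun_prop
        refine ⟨_, ?_, hlap.add (lap_re hPa)⟩
        refine le_trans ?_ (le_trans hl (by simp))
        have a1 := normSq_nonneg (deriv (fun w => (T (s, w)).1) w)
        have a2 := normSq_nonneg (deriv (fun w => (T (s, w)).2) w)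
        positivity)
  have hmem : ((-(X / 2) : ℝ) : ℂ) ∈ K := by
    refine ⟨?_, ?_, ?_⟩
    · rw [ofReal_re]; linarith
    · rw [ofReal_re]; linarith
    · rw [ofReal_im, abs_zero]; positivity
  have a1 := hmax _ hmem
  have a2 := (abs_le.mp (hdeep _ hmem (by rw [ofReal_re]))).1
  simp only [u, hP, Prod.mk.eta, ofReal_re, ofReal_im] at a1 a2
  have a3 : κ * (σ / 20) ≤ κ * (X / 20) := by gcongr
  have a4 : 0 ≤ δ * ((-(X / 2)) ^ 2 - 0 ^ 2) := by
    apply mul_nonneg hδ0.le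
    nlinarith
  nlinarith

theorem Setup.false {R : ℝ} {T : ℂ × ℂ → ℂ × ℂ} (h : Setup R T) : False := by
  have hR := h.pos
  obtain ⟨Λ, hΛ⟩ : ∃ Λ : ℝ, 10 ^ 5 ≤ Λ := ⟨_, le_rfl⟩
  obtain ⟨A, hA⟩ : ∃ A : ℝ, A = 16 * Λ ^ 6 := ⟨_, rfl⟩
  set D := A + 20 * A ^ 2 with hD
  have t1 : ∀ᶠ s : ℝ in 𝓝 0, D * s ^ 6 ≤ R ^ 6 := by
    have : ContinuousAt (fun s : ℝ => D * s ^ 6) 0 := by fun_prop
    exact this.eventually_le_const (by simpa using pow_pos hR 6)
  have t2 : ∀ᶠ s : ℝ in 𝓝 0, D ^ 2 * s ^ 6 ≤ 1 / 2000 := by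
    have : ContinuousAt (fun s : ℝ => D ^ 2 * s ^ 6) 0 := by fun_prop
    exact this.eventually_le_const (by simp)
  have t3 : ∀ᶠ s : ℝ in 𝓝 0, s < R := eventually_lt_nhds hR
  have : ∀ᶠ s : ℝ in 𝓝[>] 0, False := by
    filter_upwards [self_mem_nhdsWithin, nhdsWithin_le_nhds t1, nhdsWithin_le_nhds t2,
      nhdsWithin_le_nhds t3] with s hs a1 a2 a3
    have hs' : 0 < s := hs
    refine h.false_aux hs' a3 hΛ hA a1 ?_
    have : 0 < s ^ 6 := by positivity
    rw [← hD]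
    nlinarith
  exact this.exists.elim fun _ h => h

end Pool.Agent.Lib.MP_08f711_an
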