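import Mathlib
import Pool.Agent.Lib.MP_08f711_an.Vertical
import Pool.Agent.Lib.MP_08f711_an.Osgood

/-!
Properties of the domain where `rho` is negative.
-/

open Complex Filter Topology Set Metric Asymptotics
open scoped ContDiff

namespace Pool.Agent.Lib.MP_08f711_an

theorem not_convex_image {U : Set (ℂ × ℂ)} (hU : IsOpen U) (h0 : (0 : ℂ × ℂ) ∈ U)
    {Φ : ℂ × ℂ → ℂ × ℂ} (hΦ : DifferentiableOn ℂ Φ (U ∩ {x | rho x < 0}))
    (hinj : InjOn Φ (U ∩ {x | rho x < 0})) : ¬ Convex ℝ (Φ '' (U ∩ {x | rho x < 0})) := by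
  intro hconv
  set G := U ∩ {x | rho x < 0} with hG
  have hGo : IsOpen G := hU.inter (isOpen_lt continuous_rho continuous_const)
  obtain ⟨R0, hR0, hball⟩ := Metric.isOpen_iff.mp hU 0 h0
  set R := min R0 (1 / 4) with hR
  have hmem : ∀ x : ℂ × ℂ, ‖x‖ < R → rho x < 0 → x ∈ G := fun x h1 h2 =>
    ⟨hball (mem_ball_zero_iff.mpr (h1.trans_le (min_le_left _ _))), h2⟩
  let σ : ℂ × ℂ → ℂ × ℂ := fun x => (I * x.1, x.2)
  have hσn : ∀ x, ‖σ x‖ = ‖x‖ := fun x => by simp [σ, Prod.norm_def]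
  have hσρ : ∀ x, rho (σ x) = rho x := fun x => by simp [σ, rho, Q_I_mul]
  have hσd : Differentiable ℂ σ := by simp only [σ]; fun_prop
  have hσ4 : ∀ x, σ (σ (σ (σ x))) = x := fun x => by
    refine Prod.ext ?_ rfl
    simp only [σ]
    linear_combination x.1 * I_pow_four
  let A : ℂ × ℂ → ℂ × ℂ := fun x =>
    (1 / 4 : ℂ) • (Φ x + Φ (σ x) + Φ (σ (σ x)) + Φ (σ (σ (σ x))))
  have hA : ∀ x, ‖x‖ < R → rho x < 0 → A x ∈ Φ '' G := by
    intro x h1 h2
    have m0 : Φ x ∈ Φ '' G := mem_image_of_mem _ (hmem _ h1 h2)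
    have m1 : Φ (σ x) ∈ Φ '' G :=
      mem_image_of_mem _ (hmem _ (by simpa only [hσn] using h1) (by simpa only [hσρ] using h2))
    have m2 : Φ (σ (σ x)) ∈ Φ '' G :=
      mem_image_of_mem _ (hmem _ (by simpa only [hσn] using h1) (by simpa only [hσρ] using h2))
    have m3 : Φ (σ (σ (σ x))) ∈ Φ '' G :=
      mem_image_of_mem _ (hmem _ (by simpa only [hσn] using h1) (by simpa only [hσρ] using h2))
    have n1 := hconv m0 m1 (a := 1 / 2) (b := 1 / 2) (by norm_num) (by norm_num) (by norm_num)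
    have n2 := hconv m2 m3 (a := 1 / 2) (b := 1 / 2) (by norm_num) (by norm_num) (by norm_num)
    have n3 := hconv n1 n2 (a := 1 / 2) (b := 1 / 2) (by norm_num) (by norm_num) (by norm_num)
    convert n3 using 1
    simp only [A]
    ext <;> simp <;> ring
  have hΦd : ∀ x, ‖x‖ < R → rho x < 0 → DifferentiableAt ℂ Φ x := fun x h1 h2 =>
    hΦ.differentiableAt (hGo.mem_nhds (hmem x h1 h2))
  have hAd : ∀ x, ‖x‖ < R → rho x < 0 → DifferentiableAt ℂ A x := by
    intro x h1 h2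
    have d0 := hΦd x h1 h2
    have d1 : DifferentiableAt ℂ (fun x => Φ (σ x)) x :=
      (hΦd _ (by simpa only [hσn] using h1) (by simpa only [hσρ] using h2)).comp x (hσd x)
    have d2 : DifferentiableAt ℂ (fun x => Φ (σ (σ x))) x :=
      (hΦd _ (by simpa only [hσn] using h1) (by simpa only [hσρ] using h2)).comp x
        ((hσd.comp hσd) x)
    have d3 : DifferentiableAt ℂ (fun x => Φ (σ (σ (σ x)))) x :=
      (hΦd _ (by simpa only [hσn] using h1) (by simpa only [hσρ] using h2)).comp x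
        ((hσd.comp (hσd.comp hσd)) x)
    exact (((d0.add d1).add d2).add d3).const_smul (1 / 4 : ℂ)
  refine Setup.false (R := R) (T := fun x => Function.invFunOn Φ G (A x))
    ⟨by positivity, min_le_right _ _, fun x hx => ?_, fun x h1 h2 => ?_, fun z w _ _ => ?_,
      fun w h1 h2 => ?_⟩
  · exact ((differentiableAt_invFunOn hGo hΦ hinj (hA x hx.1 hx.2)).comp x
      (hAd x hx.1 hx.2)).differentiableWithinAt
  · obtain ⟨y, hy, hy2⟩ := hA x h1 h2
    exact le_of_lt (Function.invFunOn_mem ⟨y, hy, hy2⟩).2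
  · have : A (σ (z, w)) = A (z, w) := by
      simp only [A, hσ4]
      congr 1
      abel
    exact congrArg _ this
  · have e : σ (0, w) = (0, w) := by simp [σ]
    have : A (0, w) = Φ (0, w) := by
      simp only [A, e]
      ext <;> simp <;> ring
    simp only [this]
    exact hinj.leftInvOn_invFunOn (hmem _ (by simpa using h1) h2)

theorem contDiff_rho : ContDiff ℝ ∞ rho := by
  have hre : ContDiff ℝ ∞ Complex.re := reCLM.contDiff
  have him : ContDiff ℝ ∞ Complex.im := imCLM.contDiff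
  have hn : ContDiff ℝ ∞ (fun z : ℂ => normSq z) := by
    simp only [normSq_apply]
    fun_prop
  unfold rho Q
  fun_prop

theorem rho_weighted (x : ℂ × ℂ) (t : ℝ) :
    rho ((t : ℂ) * x.1, -1 / 2 + (t : ℂ) ^ 3 * (x.2 + 1 / 2)) =
      t ^ 6 * (rho x + 1 / 4 - normSq x.1 ^ 4) + t ^ 8 * normSq x.1 ^ 4 - 1 / 4 := by
  have e1 : (((t : ℂ) * x.1) ^ 4).re = t ^ 4 * (x.1 ^ 4).re := by
    rw [mul_pow, ← ofReal_pow, re_ofReal_mul]
  simp only [rho, Q, e1, map_mul, normSq_ofReal]
  simp only [normSq_apply, ← ofReal_pow, add_re, add_im, re_ofReal_mul, im_ofReal_mul]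
  norm_num
  ring

theorem isConnected_domain : IsConnected {x | rho x < 0} := by
  refine IsPathConnected.isConnected ⟨((0 : ℂ), (-1 / 2 : ℂ)), ?_, fun x hx => ?_⟩
  · simp only [mem_ofPred_eq, rho, Q_zero, normSq_apply]
    norm_num
  · refine JoinedIn.ofLine (f := fun t : ℝ => ((t : ℂ) * x.1, -1 / 2 + (t : ℂ) ^ 3 * (x.2 + 1 / 2)))
      (by fun_prop) (by simp) (by ext <;> simp; ring) ?_
    rintro _ ⟨t, ⟨ht0, ht1⟩, rfl⟩
    simp only [mem_ofPred_eq] at hx ⊢
    rw [rho_weighted]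
    have h1 : t ^ 8 ≤ t ^ 6 := pow_le_pow_of_le_one ht0 ht1 (by norm_num)
    have h2 : t ^ 6 ≤ 1 := pow_le_one₀ ht0 ht1
    have h3 : 0 ≤ t ^ 6 := by positivity
    have h4 : 0 ≤ normSq x.1 ^ 4 := by have := normSq_nonneg x.1; positivity
    have h5 := mul_le_mul_of_nonneg_right h1 h4
    rcases h3.eq_or_lt with h6 | h6
    · nlinarith
    · nlinarith [mul_neg_of_pos_of_neg h6 hx]

theorem isBounded_domain : Bornology.IsBounded {x | rho x < 0} := by
  refine (isBounded_closedBall (x := (0 : ℂ × ℂ)) (r := 2)).subset (fun x hx => ?_)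
  simp only [mem_ofPred_eq, rho] at hx
  have h1 := Q_lower' x.1
  have h0 := normSq_nonneg x.1
  have h2 : -(1 / 4) ≤ x.2.re + normSq x.2 := by
    rw [normSq_apply]; nlinarith [sq_nonneg (x.2.re + 1 / 2), sq_nonneg x.2.im]
  have h3 : normSq x.1 ≤ 1 := by
    by_contra h
    push Not at h
    have h4 : 1 ≤ normSq x.1 ^ 3 := one_le_pow₀ h.le
    nlinarith
  have h4 : normSq x.1 ^ 3 ≤ 1 := pow_le_one₀ h0 h3
  have h5 : 0 ≤ normSq x.1 ^ 4 := by positivity
  rw [mem_closedBall_zero_iff, Prod.norm_def, max_le_iff]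
  have h6 := neg_le_abs x.2.re
  have h7 := abs_re_le_norm x.2
  rw [normSq_eq_norm_sq] at h3
  rw [normSq_eq_norm_sq x.2] at hx
  constructor <;> nlinarith [norm_nonneg x.1, norm_nonneg x.2]

theorem rho_eq_zero_of_frontier {q : ℂ × ℂ} (hq : q ∈ frontier {x | rho x < 0}) : rho q = 0 :=
  frontier_lt_subset_eq continuous_rho continuous_const hq

theorem zero_mem_frontier : (0 : ℂ × ℂ) ∈ frontier {x | rho x < 0} := by
  rw [(isOpen_lt continuous_rho continuous_const).frontier_eq]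
  refine ⟨?_, by simp [rho, Q_zero]⟩
  have ht : Tendsto (fun s : ℝ => ((0 : ℂ), -(s : ℂ))) (𝓝[>] 0) (𝓝 0) := by
    have : Continuous (fun s : ℝ => ((0 : ℂ), -(s : ℂ))) := by fun_prop
    have h := this.tendsto 0
    simp only [ofReal_zero, neg_zero] at h
    exact h.mono_left nhdsWithin_le_nhds
  refine mem_closure_of_tendsto ht ?_
  filter_upwards [Ioo_mem_nhdsGT (zero_lt_one' ℝ)] with s hs
  simp only [rho, Q_zero, normSq_neg, normSq_ofReal, neg_re, ofReal_re]
  nlinarith [hs.1, hs.2]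

theorem fderiv_rho_ne_zero {q : ℂ × ℂ} (hq : rho q = 0) : fderiv ℝ rho q ≠ 0 := by
  intro h0
  let γ : ℝ → ℂ × ℂ := fun t => ((t : ℂ) * q.1, -1 / 2 + (t : ℂ) ^ 3 * (q.2 + 1 / 2))
  have hγ1 : γ 1 = q := by ext <;> simp [γ]; ring
  have hγ : DifferentiableAt ℝ γ 1 := by
    have : Differentiable ℝ (fun t : ℝ => (t : ℂ)) := ofRealCLM.differentiable
    simp only [γ]
    fun_prop
  have h1 : HasFDerivAt rho (0 : ℂ × ℂ →L[ℝ] ℝ) (γ 1) := by
    rw [hγ1, ← h0]
    exact (contDiff_rho.differentiable (by simp) q).hasFDerivAt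
  have h2 := h1.comp_hasDerivAt 1 hγ.hasDerivAt
  have h3 : HasDerivAt (rho ∘ γ) (6 * (rho q + 1 / 4 - normSq q.1 ^ 4) + 8 * normSq q.1 ^ 4) 1 := by
    have e : rho ∘ γ = fun t => t ^ 6 * (rho q + 1 / 4 - normSq q.1 ^ 4) +
        t ^ 8 * normSq q.1 ^ 4 - 1 / 4 := funext fun t => rho_weighted q t
    rw [e]
    have := ((((hasDerivAt_pow 6 (1 : ℝ)).mul_const (rho q + 1 / 4 - normSq q.1 ^ 4))).add
      ((hasDerivAt_pow 8 (1 : ℝ)).mul_const (normSq q.1 ^ 4))).sub_const (1 / 4)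
    exact this.congr_deriv (by norm_num)
  have h4 := h2.unique h3
  have h5 : 0 ≤ normSq q.1 ^ 4 := by have := normSq_nonneg q.1; positivity
  simp only [zero_apply, hq] at h4
  linarith

theorem tendsto_second_diff {f : ℂ × ℂ → ℝ} (hf : ContDiff ℝ 2 f) (q u : ℂ × ℂ) :
    Tendsto (fun s : ℝ => (f (q + s • u) + f (q + (-s) • u) - 2 * f q) / s ^ 2) (𝓝[>] 0)
      (𝓝 (iteratedFDeriv ℝ 2 f q ![u, u])) := by
  let g : ℝ → ℝ := fun s => f (q + s • u)
  have hg : ContDiff ℝ 2 g := hf.comp (by fun_prop)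
  have hline : ∀ s : ℝ, HasDerivAt (fun s : ℝ => q + s • u) u s := fun s => by
    simpa using ((hasDerivAt_id s).smul_const u).const_add q
  have hd1 : deriv g = fun s => fderiv ℝ f (q + s • u) u := by
    funext s
    exact ((hf.differentiable (by simp) _).hasFDerivAt.comp_hasDerivAt s (hline s)).deriv
  have hd2 : iteratedDeriv 2 g 0 = iteratedFDeriv ℝ 2 f q ![u, u] := by
    rw [iteratedDeriv_succ, iteratedDeriv_one, hd1, iteratedFDeriv_two_apply]
    have h1 : DifferentiableAt ℝ (fderiv ℝ f) (q + (0 : ℝ) • u) :=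
      (hf.fderiv_right (m := 1) (by norm_num)).differentiable (by simp) _
    have h2 := (h1.hasFDerivAt.comp_hasDerivAt 0 (hline 0)).clm_apply (hasDerivAt_const 0 u)
    simpa using h2.deriv
  have ht := taylor_isLittleO_univ (x₀ := 0) (n := 2) hg
  have ht2 : (fun s => g s - (g 0 + s * deriv g 0 + s ^ 2 / 2 * iteratedDeriv 2 g 0)) =o[𝓝 0]
      fun s : ℝ => s ^ 2 := by
    refine ht.congr (fun s => ?_) (fun s => by simp)
    simp only [taylor_within_apply, iteratedDerivWithin_univ, Finset.sum_range_succ,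
      Finset.sum_range_zero, iteratedDeriv_zero, iteratedDeriv_one, smul_eq_mul, Nat.factorial]
    push_cast
    ring
  have hneg : Tendsto (fun s : ℝ => -s) (𝓝 0) (𝓝 0) := by simpa using continuous_neg.tendsto (0 : ℝ)
  have ht3 := (ht2.comp_tendsto hneg).congr_right (g₂ := fun s : ℝ => s ^ 2) (fun s => by simp)
  have ht4 := ((ht2.add ht3).tendsto_div_nhds_zero.add_const (iteratedDeriv 2 g 0)).mono_left
    (nhdsWithin_le_nhds (s := Ioi 0))
  rw [zero_add, hd2] at ht4
  refine ht4.congr' ?_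
  filter_upwards [self_mem_nhdsWithin] with s hs
  have hs0 : s ≠ 0 := ne_of_gt hs
  simp only [Function.comp, g, zero_smul, add_zero, ← hd2]
  field_simp
  ring

theorem levi_rho_nonneg (q v : ℂ × ℂ) :
    0 ≤ iteratedFDeriv ℝ 2 rho q ![v, v] + iteratedFDeriv ℝ 2 rho q ![I • v, I • v] := by
  have h2 : ContDiff ℝ 2 rho := mod_cast contDiff_infty.mp contDiff_rho 2
  have t := (tendsto_second_diff h2 q v).add (tendsto_second_diff h2 q (I • v))
  obtain ⟨l, hl, hlap⟩ := lap_rho (Z := fun t => q.1 + t * v.1) (W := fun t => q.2 + t * v.2)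
    (t := 0) (by fun_prop) (by fun_prop)
  have hl0 : 0 ≤ l := by
    refine le_trans ?_ hl
    have a1 := normSq_nonneg (deriv (fun t => q.1 + t * v.1) 0)
    have a2 := normSq_nonneg (deriv (fun t => q.2 + t * v.2) 0)
    positivity
  unfold Lap at hlap
  rw [tendsto_nhds_unique t (hlap.congr (fun s => ?_))]
  · exact hl0
  · have e1 : q + s • v = (q.1 + (0 + (s : ℂ)) * v.1, q.2 + (0 + (s : ℂ)) * v.2) := by
      ext <;> simp
    have e2 : q + (-s) • v = (q.1 + (0 - (s : ℂ)) * v.1, q.2 + (0 - (s : ℂ)) * v.2) := by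
      ext <;> simp
    have e3 : q + s • (I • v) =
        (q.1 + (0 + I * (s : ℂ)) * v.1, q.2 + (0 + I * (s : ℂ)) * v.2) := by
      ext <;> simp <;> ring
    have e4 : q + (-s) • (I • v) =
        (q.1 + (0 - I * (s : ℂ)) * v.1, q.2 + (0 - I * (s : ℂ)) * v.2) := by
      ext <;> simp <;> ring
    rw [e1, e2, e3, e4]
    simp only [zero_mul, add_zero, Prod.mk.eta]
    ring

theorem order_contact_le {q : ℂ × ℂ} (hq : rho q = 0) {γ : ℂ → ℂ × ℂ} (hγ : AnalyticAt ℂ γ 0)
    (hγ0 : γ 0 = q) {ν N : ℕ} (hν : analyticOrderAt (fun t => γ t - q) 0 = ν)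
    (hN : (fun t => rho (γ t)) =O[𝓝 0] fun t => ‖t‖ ^ N) : N ≤ 6 * ν := by
  by_contra hlt
  push Not at hlt
  obtain ⟨g, hg, hg0, he⟩ := (hγ.sub (analyticAt_const (v := q))).analyticOrderAt_eq_natCast.mp hν
  have hgpos : 0 < ‖g 0‖ := norm_pos_iff.mpr hg0
  set c := (‖g 0‖ / 2) ^ 6 / 9 with hc
  have hc0 : 0 < c := by positivity
  have h1 := (hN.trans_isLittleO (isLittleO_norm_pow_norm_pow hlt)).bound (c := c / 2)
    (by positivity)
  have h2 : ∀ᶠ t in 𝓝 (0 : ℂ), ‖g 0‖ / 2 < ‖g t‖ :=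
    hg.continuousAt.norm.eventually_const_lt (by linarith)
  have h3 : ∀ᶠ t in 𝓝 (0 : ℂ), ‖(γ t).1 - q.1‖ ≤ ‖(γ t).1‖ := by
    rcases eq_or_ne q.1 0 with h | h
    · exact Eventually.of_forall fun t => by simp [h]
    · have a1 : ContinuousAt (fun t => ‖(γ t).1 - q.1‖) 0 := by
        have := hγ.continuousAt; fun_prop
      have a2 : ContinuousAt (fun t => ‖(γ t).1‖) 0 := by
        have := hγ.continuousAt; fun_prop
      exact (a1.eventually_lt a2 (by simpa [hγ0] using h)).mono fun t ht => ht.le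
  have h4 : ∀ᶠ t in 𝓝 (0 : ℂ), ‖(γ t).2 - q.2‖ ≤ 1 := by
    have a1 : ContinuousAt (fun t => ‖(γ t).2 - q.2‖) 0 := by
      have := hγ.continuousAt; fun_prop
    exact a1.eventually_le_const (by simp [hγ0])
  obtain ⟨r0, hr0, hball⟩ := Metric.eventually_nhds_iff_ball.mp
    (h1.and (h2.and (h3.and (h4.and (he.and hγ.eventually_analyticAt)))))
  set r := r0 / 2
  have hr : 0 < r := by positivity
  have hsub : ∀ t ∈ closedBall (0 : ℂ) r, t ∈ ball (0 : ℂ) r0 :=
    fun t ht => closedBall_subset_ball (by simp only [r]; linarith) ht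
  have hZ : ∀ t ∈ closedBall (0 : ℂ) r, AnalyticAt ℂ (fun t => (γ t).1) t := fun t ht =>
    analyticAt_fst.comp (hball t (hsub t ht)).2.2.2.2.2
  have hW : ∀ t ∈ closedBall (0 : ℂ) r, AnalyticAt ℂ (fun t => (γ t).2) t := fun t ht =>
    analyticAt_snd.comp (hball t (hsub t ht)).2.2.2.2.2
  let u : ℂ → ℝ := fun t => rho ((γ t).1, (γ t).2) - 1 / 9 * normSq (((γ t).1 - q.1) ^ 3) -
    1 / 9 * normSq (((γ t).2 - q.2) ^ 3)
  have hmax := max_principle (isCompact_closedBall (0 : ℂ) r) (u := u)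
    (fun t ht => by
      have a1 := (hZ t ht).continuousAt
      have a2 := (hW t ht).continuousAt
      have a3 := continuous_rho
      refine ContinuousAt.continuousWithinAt ?_
      simp only [u]
      fun_prop) (B := -(c / 2 * r ^ (6 * ν))) (by
      intro t ht
      obtain ⟨b1, b2, b3, b4, b5, -⟩ := hball t (hsub t ht)
      rcases (mem_closedBall_zero_iff.mp ht).eq_or_lt with he | hlt
      · left
        rw [Real.norm_of_nonneg (r := ‖t‖ ^ (6 * ν)) (by positivity), he] at b1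
        have b6 : r ^ ν * (‖g 0‖ / 2) ≤ ‖γ t - q‖ := by
          have b5' : γ t - q = (t - 0) ^ ν • g t := b5
          rw [b5', norm_smul, sub_zero, norm_pow, he]
          gcongr
        have b7 := pow_le_pow_left₀ (by positivity) b6 6
        have b8 : ‖γ t - q‖ ^ 6 ≤ ‖(γ t).1 - q.1‖ ^ 6 + ‖(γ t).2 - q.2‖ ^ 6 := by
          rw [Prod.norm_def, Prod.fst_sub, Prod.snd_sub]
          rcases max_choice ‖(γ t).1 - q.1‖ ‖(γ t).2 - q.2‖ with h | h <;> rw [h] <;>
            simp only [le_add_iff_nonneg_left, le_add_iff_nonneg_right] <;> positivity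
        have b9 : (r ^ ν * (‖g 0‖ / 2)) ^ 6 = 9 * c * r ^ (6 * ν) := by
          rw [hc]; ring
        simp only [u, map_pow, normSq_pow_three, Prod.mk.eta]
        linarith [le_abs_self (rho (γ t)), Real.norm_eq_abs (rho (γ t))]
      · right
        refine ⟨closedBall_mem_nhds_of_mem (mem_ball_zero_iff.mpr hlt), ?_⟩
        obtain ⟨l, hl, hlap⟩ := lap_rho (hZ t ht) (hW t ht)
        have a1 : AnalyticAt ℂ (fun t => (γ t).1 - q.1) t := (hZ t ht).sub analyticAt_const
        have a2 : AnalyticAt ℂ (fun t => (γ t).2 - q.2) t := (hW t ht).sub analyticAt_const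
        refine ⟨_, ?_, (hlap.sub ((lap_normSq (a1.fun_pow 3)).const_mul (1 / 9))).sub
          ((lap_normSq (a2.fun_pow 3)).const_mul (1 / 9))⟩
        rw [deriv_fun_pow a1.differentiableAt, deriv_fun_pow a2.differentiableAt, deriv_sub_const,
          deriv_sub_const]
        simp only [map_mul, map_pow, normSq_natCast]
        have c1 := normSq_nonneg (deriv (fun t => (γ t).1) t)
        have c2 := normSq_nonneg (deriv (fun t => (γ t).2) t)
        have c3 : normSq ((γ t).1 - q.1) ^ 2 ≤ normSq ((γ t).1) ^ 2 := by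
          refine pow_le_pow_left₀ (normSq_nonneg _) ?_ 2
          rw [normSq_eq_norm_sq, normSq_eq_norm_sq]
          exact pow_le_pow_left₀ (norm_nonneg _) b3 2
        have c4 : normSq ((γ t).2 - q.2) ^ 2 ≤ 1 := by
          refine pow_le_one₀ (normSq_nonneg _) ?_
          rw [normSq_eq_norm_sq]
          exact pow_le_one₀ (norm_nonneg _) b4
        have c5 := mul_le_mul_of_nonneg_right c3 c1
        have c6 := mul_le_mul_of_nonneg_right c4 c2
        have c7 : 0 ≤ normSq ((γ t).1) ^ 2 * normSq (deriv (fun t => (γ t).1) t) := by positivity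
        norm_num
        linarith) 0 (mem_closedBall_self hr.le)
  simp only [u, hγ0, Prod.mk.eta, hq, sub_self] at hmax
  have : 0 < c / 2 * r ^ (6 * ν) := by positivity
  norm_num at hmax
  linarith

end Pool.Agent.Lib.MP_08f711_an
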